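import Pool.Agent.R134.Kak.Final
import Pool.Agent.H810R3.Tub.Compare
import Pool.Agent.H810R3.Tub.Per2

set_option autoImplicit false

/-! The integral estimate for reducible families of boxes dual to the caps of the paraboloid. -/

open MeasureTheory Set ENNReal NNReal Metric

namespace Pool.Agent.R134.Kak

open Pool.Agent.H810R3.Tub (Space box nor Fb Fb_measurable box_coord)

variable {d : ℕ}

theorem lint_time {c : ℝ} (hc : c ≠ 0) (f : ℝ → ℝ≥0∞) (hf : Measurable f) :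
    ∫⁻ t : ℝ, f (c * t) = ENNReal.ofReal |c⁻¹| * ∫⁻ t : ℝ, f t := by
  have h1 : ∫⁻ t : ℝ, f (c * t) = ∫⁻ t, f t ∂(Measure.map (fun t : ℝ => c • t) volume) := by
    rw [lintegral_map hf (measurable_const_smul _)]
    rfl
  rw [h1, Measure.map_addHaar_smul _ hc, lintegral_smul_measure]
  simp

theorem sum_tub_meas {ι : Type} [Fintype ι] (A : ℝ) (v β : ι → Vec d) (q : ℝ) :
    Measurable (fun p : ℝ × Vec d => (∑ i, tub A v β i p) ^ q) :=
  (Finset.measurable_fun_sum _ fun i _ => tub_meas A v β i).pow_const q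

theorem sum_tub_meas' {ι : Type} [Fintype ι] (A : ℝ) (v β : ι → Vec d) (q t : ℝ) :
    Measurable (fun x : Vec d => (∑ i, tub A v β i (t, x)) ^ q) :=
  (sum_tub_meas A v β q).comp (measurable_const.prodMk measurable_id)

/-- **The integral estimate for reducible families of boxes.** -/
theorem box_int (e : ℕ) {q : ℝ} (hq : 1 + 1 / ((e : ℝ) + 1) < q) {σ : ℝ} (hσ : 0 < σ) (hσ1 : σ ≤ 1)
    (K S : ℝ≥0) : ∃ E : ℝ, 0 < E ∧
    ∀ N : ℝ, 1 ≤ N → ∀ (ι : Type) [Fintype ι] [Nonempty ι] (ω β : ι → Vec (e + 1)) (s : ι → ℝ)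
      (f : ι → Fin (e + 1) → Space (e + 1)),
    (∀ i, ‖ω i‖ ≤ 1) → (∀ i j, i ≠ j → σ / N ≤ ‖ω i - ω j‖) →
    (∀ i, Orthonormal ℝ (Fin.cons (nor (ω i)) (f i) : Fin (e + 1 + 1) → Space (e + 1))) →
    (∀ i, |s i| ≤ S * N ^ 2) →
    Red K (e + 1) Finset.univ (fun i => (N / σ) • ω i) (fun i => N⁻¹ • β i) →
    ∫⁻ y, Fb N ω f (fun i => WithLp.toLp 2 (β i + s i • (-(2 : ℝ) • ω i), s i)) y ^ q ≤
      ENNReal.ofReal (E * N ^ (e + 1 + 2) * (Fintype.card ι : ℝ) ^ (q - 1 / ((e : ℝ) + 1))) := by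
  classical
  have hd0 : (0 : ℝ) < (e : ℝ) + 1 := by positivity
  have hq1 : 1 < q := by
    have : 0 < 1 / ((e : ℝ) + 1) := by positivity
    linarith
  have hq0 : 0 < q := by linarith
  have hS0 : (0 : ℝ) ≤ S := S.2
  set L : ℝ := 2 * ((1 + ((e : ℝ) + 1)) / 2 + S) with hL
  have hL0 : 0 ≤ L := by positivity
  obtain ⟨C, hC, hmain⟩ := red_main (K := K) (A := 2 * ((e : ℝ) + 1)) (L := L) K.2 (by positivity) hL0
    ((2 * (e + 1 + 2)) ^ (e + 1)) e q hq
  refine ⟨C / (2 * σ), by positivity, ?_⟩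
  intro N hN ι _ _ ω β s f hω hsep hf hs hR
  have hN0 : 0 < N := by linarith
  have hM : Mult ((2 * (e + 1 + 2)) ^ (e + 1)) (e + 1) Finset.univ (fun i => (N / σ) • ω i) := by
    intro J' _ hJ'
    have h := pack J' (fun i => (N / σ) • ω i) (by
      intro i _ j _ hij
      rw [← smul_sub, norm_smul, Real.norm_eq_abs, abs_of_pos (by positivity)]
      have h1 := hsep i j hij
      calc (1 : ℝ) = N / σ * (σ / N) := by field_simp
        _ ≤ _ := mul_le_mul_of_nonneg_left h1 (by positivity)) hJ'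
    exact h
  have hcore := hmain ι Finset.univ (fun i => (N / σ) • ω i) (fun i => N⁻¹ • β i) Finset.univ_nonempty hR hM
  rw [Finset.card_univ] at hcore
  set a : ι → Space (e + 1) := fun i => WithLp.toLp 2 (β i + s i • (-(2 : ℝ) • ω i), s i) with ha
  set c : ℝ := -(2 * σ) / N ^ 2 with hc
  have hc0 : c ≠ 0 := by
    rw [hc]
    apply div_ne_zero _ (by positivity)
    linarith
  -- pointwise bound
  have hterm : ∀ t x i, (WithLp.toLp 2 (x, t) : Space (e + 1)) ∈ box N (nor (ω i)) (f i) (a i) →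
      c * t ∈ Icc (-L) L ∧
        tub (2 * ((e : ℝ) + 1)) (fun i => (N / σ) • ω i) (fun i => N⁻¹ • β i) i (c * t, N⁻¹ • x) = 1 := by
    intro t x i hy
    obtain ⟨h1, h2⟩ := box_coord hN (hω i) (hf i) hy
    have e1 : ((WithLp.toLp 2 (x, t) : Space (e + 1)) - a i).snd = t - s i := rfl
    have e2 : ((WithLp.toLp 2 (x, t) : Space (e + 1)) - a i).fst =
        x - (β i + s i • (-(2 : ℝ) • ω i)) := rfl
    rw [e1] at h1 h2
    rw [e2] at h1
    push_cast at h1 h2
    have hN2 : 0 < N ^ 2 := by positivity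
    constructor
    · have ht : |t| ≤ ((1 + ((e : ℝ) + 1)) / 2 + S) * N ^ 2 := by
        have h3 : |t| ≤ |t - s i| + |s i| := by
          have := abs_add_le (t - s i) (s i)
          rwa [sub_add_cancel] at this
        have h4 := hs i
        nlinarith
      have h5 : |c * t| ≤ L := by
        rw [abs_mul, hc, abs_div, abs_neg, abs_of_pos (by positivity : 0 < 2 * σ), abs_of_pos hN2,
          div_mul_eq_mul_div, div_le_iff₀ hN2]
        calc 2 * σ * |t| ≤ 2 * 1 * (((1 + ((e : ℝ) + 1)) / 2 + S) * N ^ 2) := by gcongr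
          _ = L * N ^ 2 := by rw [hL]; ring
      exact abs_le.1 h5
    · unfold tub
      apply indicator_of_mem
      show ‖N⁻¹ • x - (N⁻¹ • β i + (c * t) • (N / σ) • ω i)‖ ≤ 2 * ((e : ℝ) + 1)
      have e3 : N⁻¹ • x - (N⁻¹ • β i + (c * t) • (N / σ) • ω i) =
          N⁻¹ • (x - (β i + s i • (-(2 : ℝ) • ω i)) + (2 * (t - s i)) • ω i) := by
        have e4 : (c * t) • (N / σ) • ω i = (N⁻¹ * (-(2 * t))) • ω i := by
          rw [smul_smul]
          congr 1
          rw [hc]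
          field_simp
        rw [e4]
        module
      rw [e3, norm_smul, norm_inv, Real.norm_eq_abs, abs_of_pos hN0, inv_mul_le_iff₀ hN0]
      linarith
  set v' : ι → Vec (e + 1) := fun i => (N / σ) • ω i with hv'
  set β' : ι → Vec (e + 1) := fun i => N⁻¹ • β i with hβ'
  have hIm : Measurable (fun τ : ℝ => ∫⁻ x : Vec (e + 1), (∑ i, tub (2 * ((e : ℝ) + 1)) v' β' i (τ, x)) ^ q) :=
    Measurable.lintegral_prod_right' (sum_tub_meas (2 * ((e : ℝ) + 1)) v' β' q)
  set H : ℝ → ℝ≥0∞ := (Icc (-L) L).indicator (fun τ => ∫⁻ x : Vec (e + 1),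
    (∑ i, tub (2 * ((e : ℝ) + 1)) v' β' i (τ, N⁻¹ • x)) ^ q) with hH
  have hHe : H = (Icc (-L) L).indicator (fun τ => ENNReal.ofReal (N ^ (e + 1)) *
      ∫⁻ x : Vec (e + 1), (∑ i, tub (2 * ((e : ℝ) + 1)) v' β' i (τ, x)) ^ q) := by
    have h1 : (fun τ => ∫⁻ x : Vec (e + 1), (∑ i, tub (2 * ((e : ℝ) + 1)) v' β' i (τ, N⁻¹ • x)) ^ q) =
        (fun τ => ENNReal.ofReal (N ^ (e + 1)) *
      ∫⁻ x : Vec (e + 1), (∑ i, tub (2 * ((e : ℝ) + 1)) v' β' i (τ, x)) ^ q) := by
      funext τ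
      exact lint_scale hN0 _ (sum_tub_meas' (2 * ((e : ℝ) + 1)) v' β' q τ)
    rw [hH, h1]
  have hHm : Measurable H := by
    rw [hHe]
    exact (hIm.const_mul _).indicator measurableSet_Icc
  have hslice : ∀ t, ∫⁻ x : Vec (e + 1), Fb N ω f a (WithLp.toLp 2 (x, t)) ^ q ≤ H (c * t) := by
    intro t
    by_cases ht : c * t ∈ Icc (-L) L
    · rw [hH, indicator_of_mem ht]
      refine lintegral_mono fun x => ENNReal.rpow_le_rpow ?_ hq0.le
      unfold Fb
      refine Finset.sum_le_sum fun i _ => ?_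
      by_cases hm : (WithLp.toLp 2 (x, t) : Space (e + 1)) ∈ box N (nor (ω i)) (f i) (a i)
      · rw [indicator_of_mem hm, (hterm t x i hm).2]
      · rw [indicator_of_notMem hm]
        exact zero_le
    · rw [hH, indicator_of_notMem ht]
      have : ∀ x : Vec (e + 1), Fb N ω f a (WithLp.toLp 2 (x, t)) ^ q = 0 := by
        intro x
        have h0 : Fb N ω f a (WithLp.toLp 2 (x, t)) = 0 := by
          unfold Fb
          refine Finset.sum_eq_zero fun i _ => ?_
          exact indicator_of_notMem (fun hm => ht (hterm t x i hm).1) _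
        rw [h0, ENNReal.zero_rpow_of_pos hq0]
      simp only [this, lintegral_zero]
      exact le_refl _
  rw [fub ((Fb_measurable N ω f a).pow_const q)]
  calc ∫⁻ t : ℝ, ∫⁻ x : Vec (e + 1), Fb N ω f a (WithLp.toLp 2 (x, t)) ^ q
      ≤ ∫⁻ t : ℝ, H (c * t) := lintegral_mono hslice
    _ = ENNReal.ofReal |c⁻¹| * ∫⁻ t : ℝ, H t := lint_time hc0 H hHm
    _ = ENNReal.ofReal |c⁻¹| * (ENNReal.ofReal (N ^ (e + 1)) *
          ∫⁻ t in Icc (-L) L, ∫⁻ x : Vec (e + 1), (∑ i, tub (2 * ((e : ℝ) + 1)) v' β' i (t, x)) ^ q) := by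
        rw [hHe, lintegral_indicator measurableSet_Icc, lintegral_const_mul _ hIm]
    _ ≤ ENNReal.ofReal |c⁻¹| * (ENNReal.ofReal (N ^ (e + 1)) *
          ENNReal.ofReal (C * (Fintype.card ι : ℝ) ^ (q - 1 / ((e : ℝ) + 1)))) :=
        mul_le_mul' le_rfl (mul_le_mul' le_rfl hcore)
    _ = _ := by
        rw [← ENNReal.ofReal_mul (by positivity), ← ENNReal.ofReal_mul (by positivity)]
        congr 1
        have e5 : |c⁻¹| = N ^ 2 / (2 * σ) := by
          rw [hc, inv_div, abs_div, abs_neg, abs_of_pos (by positivity : 0 < 2 * σ),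
            abs_of_pos (by positivity : 0 < N ^ 2)]
        rw [e5]
        field_simp
        ring

end Pool.Agent.R134.Kak
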