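import Pool.Agent.R134.Kak.Induct
import Pool.Agent.H810R3.Tub.Main

set_option autoImplicit false

/-! The tube inequality for reducible families. -/

open MeasureTheory Set ENNReal NNReal Metric

namespace Pool.Agent.R134.Kak

open Pool.Agent.H810R3.Tub (Space tube dir dir_sub_le tube_eq tube_closed)

variable {d : ℕ}

/-- Fubini on the heights. -/
theorem fub {F : Space d → ℝ≥0∞} (hF : Measurable F) :
    ∫⁻ y : Space d, F y = ∫⁻ t : ℝ, ∫⁻ x : Vec d, F (WithLp.toLp 2 (x, t)) := by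
  have hmp := WithLp.volume_preserving_toLp (Vec d) ℝ
  rw [← hmp.lintegral_comp hF, Measure.volume_eq_prod]
  exact lintegral_prod_symm (fun p : Vec d × ℝ => F (WithLp.toLp 2 p))
    (hF.comp hmp.measurable).aemeasurable

theorem lint_scale {δ : ℝ} (hδ : 0 < δ) (f : Vec d → ℝ≥0∞) (hf : Measurable f) :
    ∫⁻ x : Vec d, f (δ⁻¹ • x) = ENNReal.ofReal (δ ^ d) * ∫⁻ x : Vec d, f x := by
  have h1 : ∫⁻ x : Vec d, f (δ⁻¹ • x) = ∫⁻ x, f x ∂(Measure.map (fun x : Vec d => δ⁻¹ • x) volume) := by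
    rw [lintegral_map hf (measurable_const_smul _)]
  rw [h1, Measure.map_addHaar_smul _ (inv_ne_zero hδ.ne'), lintegral_smul_measure]
  congr 2
  rw [finrank_euclideanSpace, Fintype.card_fin, inv_pow, inv_inv, abs_of_nonneg (by positivity)]

theorem pack {ι : Type} (J : Finset ι) (v : ι → Vec d) (hsep : ∀ i ∈ J, ∀ j ∈ J, i ≠ j → 1 ≤ ‖v i - v j‖)
    (hdiam : ∀ i ∈ J, ∀ j ∈ J, ‖v i - v j‖ ^ 2 ≤ d) : J.card ≤ (2 * (d + 2)) ^ d := by
  classical
  rcases J.eq_empty_or_nonempty with rfl | ⟨i₀, hi₀⟩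
  · simp
  have hsub : (⋃ i ∈ J, ball (v i) (1 / 2)) ⊆ ball (v i₀) ((d : ℝ) + 2) := by
    intro x hx
    simp only [mem_iUnion] at hx
    obtain ⟨i, hi, hx⟩ := hx
    rw [mem_ball] at hx ⊢
    have h1 : ‖v i - v i₀‖ ≤ d + 1 := by
      have h2 := hdiam i hi i₀ hi₀
      have hd0 : (0 : ℝ) ≤ d := Nat.cast_nonneg d
      nlinarith [norm_nonneg (v i - v i₀)]
    have h2 : dist (v i) (v i₀) ≤ d + 1 := by rw [dist_eq_norm]; exact h1
    have h3 := dist_triangle x (v i) (v i₀)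
    linarith
  have hdis : Set.PairwiseDisjoint (J : Set ι) (fun i => ball (v i) (1 / 2)) := by
    intro i hi j hj hij
    apply ball_disjoint_ball
    rw [dist_eq_norm]
    have := hsep i hi j hj hij
    linarith
  have h1 := measure_mono (μ := (volume : Measure (Vec d))) hsub
  rw [measure_biUnion_finset hdis (fun i _ => measurableSet_ball)] at h1
  have h2 : ∀ (x : Vec d) {r : ℝ}, 0 < r → volume (ball x r) = ENNReal.ofReal (r ^ d) * volume (ball (0 : Vec d) 1) := by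
    intro x r hr
    rw [Measure.addHaar_ball_of_pos _ _ hr, finrank_euclideanSpace, Fintype.card_fin]
  rw [Finset.sum_congr rfl (fun i _ => h2 (v i) (by norm_num : (0 : ℝ) < 1 / 2)), Finset.sum_const, nsmul_eq_mul,
    h2 (v i₀) (by positivity : (0 : ℝ) < (d : ℝ) + 2), ← mul_assoc] at h1
  have hB0 : volume (ball (0 : Vec d) 1) ≠ 0 := (measure_ball_pos _ _ one_pos).ne'
  have hBt : volume (ball (0 : Vec d) 1) ≠ ∞ := measure_ball_lt_top.ne
  rw [ENNReal.mul_le_mul_iff_left hB0 hBt, ← ENNReal.ofReal_natCast, ← ENNReal.ofReal_mul (Nat.cast_nonneg _),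
    ENNReal.ofReal_le_ofReal_iff (by positivity)] at h1
  have h3 : (J.card : ℝ) ≤ (2 * ((d : ℝ) + 2)) ^ d := by
    have h4 : (0 : ℝ) < 2 ^ d := by positivity
    calc (J.card : ℝ) = ((J.card : ℝ) * (1 / 2) ^ d) * 2 ^ d := by
          rw [mul_assoc, ← mul_pow]
          norm_num
      _ ≤ ((d : ℝ) + 2) ^ d * 2 ^ d := mul_le_mul_of_nonneg_right h1 h4.le
      _ = _ := by rw [← mul_pow]; ring
  exact_mod_cast h3

/-- **The tube inequality for reducible families.** -/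
theorem tubes (e : ℕ) {q : ℝ} (hq : 1 + 1 / ((e : ℝ) + 1) < q) (K S : ℝ≥0) : ∃ C : ℝ, 0 < C ∧
    ∀ δ : ℝ, 0 < δ → δ < 1 → ∀ (ι : Type) [Fintype ι] (v β : ι → Vec (e + 1)) (s : ι → ℝ),
    (∀ i, ‖v i‖ ≤ 1) → (∀ i, |s i| ≤ S) → (∀ i j, i ≠ j → δ ≤ ‖dir (v i) - dir (v j)‖) →
    Red K (e + 1) Finset.univ (fun i => δ⁻¹ • v i) (fun i => δ⁻¹ • β i) →
    eLpNorm (fun y : Space (e + 1) => ∑ i, (tube δ (dir (v i))
        (WithLp.toLp 2 (β i + s i • v i, s i))).indicator (fun _ => (1 : ℝ)) y) (ENNReal.ofReal q) volume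
      ≤ ENNReal.ofReal (C * δ ^ (((e : ℝ) + 1) / q) *
          (Fintype.card ι : ℝ) ^ (1 - 1 / (q * ((e : ℝ) + 1)))) := by
  classical
  have hd0 : (0 : ℝ) < (e : ℝ) + 1 := by positivity
  have hq1 : 1 < q := by
    have : 0 < 1 / ((e : ℝ) + 1) := by positivity
    linarith
  have hq0 : 0 < q := by linarith
  have hS0 : (0 : ℝ) ≤ S := S.2
  obtain ⟨C, hC, hmain⟩ := red_main (K := K) (A := 2) (L := S + 3 / 2) K.2 (by norm_num) (by linarith)
    ((2 * (e + 1 + 2)) ^ (e + 1)) e q hq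
  refine ⟨C ^ (1 / q), by positivity, ?_⟩
  intro δ hδ hδ1 ι _ v β s hv hs hsep hR
  have hp0 : ENNReal.ofReal q ≠ 0 := by
    rw [ne_eq, ENNReal.ofReal_eq_zero, not_le]
    exact hq0
  rcases isEmpty_or_nonempty ι with hι | hι
  · have : (fun y : Space (e + 1) => ∑ i, (tube δ (dir (v i))
        (WithLp.toLp 2 (β i + s i • v i, s i))).indicator (fun _ => (1 : ℝ)) y) = 0 := by
      funext y
      simp
    rw [this, eLpNorm_zero]
    exact zero_le
  have hsep' : ∀ i j, i ≠ j → δ ≤ ‖v i - v j‖ := fun i j hij => (hsep i j hij).trans (dir_sub_le _ _)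
  have hM : Mult ((2 * (e + 1 + 2)) ^ (e + 1)) (e + 1) Finset.univ (fun i => δ⁻¹ • v i) := by
    intro J' _ hJ'
    have h := pack J' (fun i => δ⁻¹ • v i) (by
      intro i _ j _ hij
      rw [← smul_sub, norm_smul, norm_inv, Real.norm_eq_abs, abs_of_pos hδ]
      have := hsep' i j hij
      rw [inv_mul_eq_div, le_div_iff₀ hδ]
      linarith) hJ'
    exact h
  have hcore := hmain ι Finset.univ (fun i => δ⁻¹ • v i) (fun i => δ⁻¹ • β i) Finset.univ_nonempty hR hM
  rw [Finset.card_univ] at hcore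
  set F : Space (e + 1) → ℝ := fun y => ∑ i, (tube δ (dir (v i))
        (WithLp.toLp 2 (β i + s i • v i, s i))).indicator (fun _ => (1 : ℝ)) y with hF
  have hFm : Measurable F := by
    apply Finset.measurable_fun_sum
    intro i _
    exact measurable_const.indicator (tube_closed _ _ _).measurableSet
  set G : ℝ → Vec (e + 1) → ℝ≥0∞ := fun t x => ∑ i, tub 2 (fun i => δ⁻¹ • v i) (fun i => δ⁻¹ • β i) i (t, x) with hG
  -- pointwise bound
  have hpt : ∀ t x, ‖F (WithLp.toLp 2 (x, t))‖ₑ ^ q ≤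
      (Icc (-((S : ℝ) + 3 / 2)) ((S : ℝ) + 3 / 2)).indicator (fun t => G t (δ⁻¹ • x) ^ q) t := by
    intro t x
    have hterm : ∀ i, (WithLp.toLp 2 (x, t) : Space (e + 1)) ∈ tube δ (dir (v i)) (WithLp.toLp 2 (β i + s i • v i, s i)) →
        t ∈ Icc (-((S : ℝ) + 3 / 2)) ((S : ℝ) + 3 / 2) ∧ tub 2 (fun i => δ⁻¹ • v i) (fun i => δ⁻¹ • β i) i (t, δ⁻¹ • x) = 1 := by
      intro i hmem
      rw [tube_eq] at hmem
      obtain ⟨ht, hx⟩ := Pool.Agent.H803R2.KakFTO.tube_subset hδ hδ1 (fun _ => β i) (hv i) (s i) hmem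
      have h1 := abs_le.1 (hs i)
      refine ⟨⟨by linarith [ht.1], by linarith [ht.2]⟩, ?_⟩
      unfold tub
      apply indicator_of_mem
      show ‖δ⁻¹ • x - (δ⁻¹ • β i + t • δ⁻¹ • v i)‖ ≤ 2
      have e1 : δ⁻¹ • x - (δ⁻¹ • β i + t • δ⁻¹ • v i) = δ⁻¹ • (x - (β i + t • v i)) := by
        rw [smul_sub, smul_add, smul_comm t]
      rw [e1, norm_smul, norm_inv, Real.norm_eq_abs, abs_of_pos hδ, inv_mul_le_iff₀ hδ]
      linarith
    by_cases ht : t ∈ Icc (-((S : ℝ) + 3 / 2)) ((S : ℝ) + 3 / 2)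
    · rw [indicator_of_mem ht]
      apply ENNReal.rpow_le_rpow _ hq0.le
      rw [hF, hG]
      refine (enorm_sum_le _ _).trans (Finset.sum_le_sum fun i _ => ?_)
      by_cases hm : (WithLp.toLp 2 (x, t) : Space (e + 1)) ∈ tube δ (dir (v i)) (WithLp.toLp 2 (β i + s i • v i, s i))
      · rw [indicator_of_mem hm, (hterm i hm).2]
        simp
      · rw [indicator_of_notMem hm]
        simp
    · rw [indicator_of_notMem ht]
      have : F (WithLp.toLp 2 (x, t)) = 0 := by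
        rw [hF]
        refine Finset.sum_eq_zero fun i _ => ?_
        exact indicator_of_notMem (fun hm => ht (hterm i hm).1) _
      rw [this]
      simp [hq0]
  have hGm : ∀ t, Measurable (fun x => G t x ^ q) := by
    intro t
    exact (Finset.measurable_fun_sum _ fun i _ => (tub_meas _ _ _ i).comp
      (measurable_const.prodMk measurable_id)).pow_const q
  have hint : ∫⁻ y, ‖F y‖ₑ ^ q ≤ ENNReal.ofReal (δ ^ (e + 1) * (C * (Fintype.card ι : ℝ) ^ (q - 1 / ((e : ℝ) + 1)))) := by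
    rw [fub (hFm.enorm.pow_const q)]
    calc ∫⁻ t : ℝ, ∫⁻ x : Vec (e + 1), ‖F (WithLp.toLp 2 (x, t))‖ₑ ^ q
        ≤ ∫⁻ t : ℝ, (Icc (-((S : ℝ) + 3 / 2)) ((S : ℝ) + 3 / 2)).indicator
            (fun t => ∫⁻ x : Vec (e + 1), G t (δ⁻¹ • x) ^ q) t := by
          refine lintegral_mono fun t => ?_
          by_cases ht : t ∈ Icc (-((S : ℝ) + 3 / 2)) ((S : ℝ) + 3 / 2)
          · simp only [indicator_of_mem ht]
            refine lintegral_mono fun x => ?_
            have := hpt t x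
            rwa [indicator_of_mem ht] at this
          · simp only [indicator_of_notMem ht]
            have : ∀ x, ‖F (WithLp.toLp 2 (x, t))‖ₑ ^ q ≤ 0 := by
              intro x
              have := hpt t x
              rwa [indicator_of_notMem ht] at this
            exact (lintegral_mono fun x => this x).trans (by simp)
      _ = ∫⁻ t in Icc (-((S : ℝ) + 3 / 2)) ((S : ℝ) + 3 / 2), ∫⁻ x : Vec (e + 1), G t (δ⁻¹ • x) ^ q :=
          lintegral_indicator measurableSet_Icc _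
      _ = ∫⁻ t in Icc (-((S : ℝ) + 3 / 2)) ((S : ℝ) + 3 / 2),
            ENNReal.ofReal (δ ^ (e + 1)) * ∫⁻ x : Vec (e + 1), G t x ^ q := by
          refine lintegral_congr fun t => ?_
          exact lint_scale hδ (fun x => G t x ^ q) (hGm t)
      _ = ENNReal.ofReal (δ ^ (e + 1)) * ∫⁻ t in Icc (-((S : ℝ) + 3 / 2)) ((S : ℝ) + 3 / 2),
            ∫⁻ x : Vec (e + 1), G t x ^ q := by
          have hGm2 : Measurable (fun p : ℝ × Vec (e + 1) => G p.1 p.2 ^ q) :=
            (Finset.measurable_fun_sum _ fun i _ => tub_meas _ _ _ i).pow_const q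
          rw [lintegral_const_mul _ (Measurable.lintegral_prod_right' (f := fun p : ℝ × Vec (e + 1) => G p.1 p.2 ^ q) hGm2)]
      _ ≤ ENNReal.ofReal (δ ^ (e + 1)) * ENNReal.ofReal (C * (Fintype.card ι : ℝ) ^ (q - 1 / ((e : ℝ) + 1))) :=
          mul_le_mul' le_rfl hcore
      _ = _ := by rw [← ENNReal.ofReal_mul (by positivity)]
  rw [eLpNorm_eq_lintegral_rpow_enorm_toReal hp0 ENNReal.ofReal_ne_top, ENNReal.toReal_ofReal hq0.le]
  have hN0 : (0 : ℝ) < Fintype.card ι := by exact_mod_cast Fintype.card_pos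
  calc (∫⁻ y, ‖F y‖ₑ ^ q) ^ (1 / q)
      ≤ (ENNReal.ofReal (δ ^ (e + 1) * (C * (Fintype.card ι : ℝ) ^ (q - 1 / ((e : ℝ) + 1))))) ^ (1 / q) :=
        ENNReal.rpow_le_rpow hint (by positivity)
    _ = ENNReal.ofReal ((δ ^ (e + 1) * (C * (Fintype.card ι : ℝ) ^ (q - 1 / ((e : ℝ) + 1)))) ^ (1 / q)) :=
        ENNReal.ofReal_rpow_of_nonneg (by positivity) (by positivity)
    _ = _ := by
        congr 1
        rw [Real.mul_rpow (by positivity) (by positivity), Real.mul_rpow hC.le (by positivity),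
          ← Real.rpow_natCast δ (e + 1), ← Real.rpow_mul hδ.le, ← Real.rpow_mul hN0.le]
        have f1 : (((e + 1 : ℕ) : ℝ)) * (1 / q) = ((e : ℝ) + 1) / q := by push_cast; ring
        have f2 : (q - 1 / ((e : ℝ) + 1)) * (1 / q) = 1 - 1 / (q * ((e : ℝ) + 1)) := by field_simp
        rw [f1, f2]
        ring

end Pool.Agent.R134.Kak
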