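import Pool.Agent.R134.Kak.Skew
import Pool.Agent.W772.Tri1

set_option autoImplicit false

/-! The planar estimate, beyond the critical exponent. -/

open MeasureTheory Set ENNReal NNReal

namespace Pool.Agent.R134.Kak

theorem step_rpow {θ : ℝ} (h0 : 0 < θ) (h1 : θ ≤ 1) (n : ℕ) :
    θ * ((n : ℝ) + 1) ^ (θ - 1) ≤ ((n : ℝ) + 1) ^ θ - (n : ℝ) ^ θ := by
  have hn : (0 : ℝ) < (n : ℝ) + 1 := by positivity
  have h2 : (-1 : ℝ) ≤ -(1 / ((n : ℝ) + 1)) := by
    rw [neg_le_neg_iff, div_le_one hn]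
    have : (0 : ℝ) ≤ n := Nat.cast_nonneg n
    linarith
  have h := rpow_one_add_le_one_add_mul_self h2 h0.le h1
  have e1 : (n : ℝ) ^ θ = ((n : ℝ) + 1) ^ θ * (1 + -(1 / ((n : ℝ) + 1))) ^ θ := by
    rw [← Real.mul_rpow hn.le (by linarith)]
    congr 1
    field_simp
    ring
  rw [e1]
  have e2 : ((n : ℝ) + 1) ^ (θ - 1) = ((n : ℝ) + 1) ^ θ * (1 / ((n : ℝ) + 1)) := by
    rw [Real.rpow_sub hn, Real.rpow_one]
    ring
  rw [e2]
  have hp : 0 < ((n : ℝ) + 1) ^ θ := by positivity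
  nlinarith

theorem sum_rpow_range {γ : ℝ} (h0 : 0 ≤ γ) (h1 : γ < 1) (M : ℕ) :
    ∑ k ∈ Finset.range M, ((k : ℝ) + 1) ^ (-γ) ≤ (M : ℝ) ^ (1 - γ) / (1 - γ) := by
  have h2 : 0 < 1 - γ := by linarith
  rw [le_div_iff₀ h2]
  calc (∑ k ∈ Finset.range M, ((k : ℝ) + 1) ^ (-γ)) * (1 - γ)
      = ∑ k ∈ Finset.range M, (1 - γ) * ((k : ℝ) + 1) ^ ((1 - γ) - 1) := by
        rw [Finset.sum_mul]
        refine Finset.sum_congr rfl fun k _ => ?_
        rw [mul_comm]
        congr 2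
        ring
    _ ≤ ∑ k ∈ Finset.range M, (((k + 1 : ℕ) : ℝ) ^ (1 - γ) - (k : ℝ) ^ (1 - γ)) := by
        refine Finset.sum_le_sum fun k _ => ?_
        push_cast
        exact step_rpow h2 (by linarith) k
    _ = (M : ℝ) ^ (1 - γ) - ((0 : ℕ) : ℝ) ^ (1 - γ) := Finset.sum_range_sub (fun k : ℕ => (k : ℝ) ^ (1 - γ)) M
    _ = (M : ℝ) ^ (1 - γ) := by
        rw [Nat.cast_zero, Real.zero_rpow h2.ne', sub_zero]

theorem sum_nat {γ : ℝ} (h0 : 0 ≤ γ) (h1 : γ < 1) (S : Finset ℕ) (M : ℕ) (hM : 0 < M) (hS : S.card ≤ M) :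
    ∑ k ∈ S, ((k : ℝ) + 1) ^ (-γ) ≤ (1 / (1 - γ) + 1) * (M : ℝ) ^ (1 - γ) := by
  classical
  have hM0 : (0 : ℝ) < M := by exact_mod_cast hM
  rw [← Finset.sum_filter_add_sum_filter_not S (fun k => k < M)]
  have h2 : ∑ k ∈ S.filter (fun k => k < M), ((k : ℝ) + 1) ^ (-γ) ≤ (M : ℝ) ^ (1 - γ) / (1 - γ) := by
    refine le_trans ?_ (sum_rpow_range h0 h1 M)
    apply Finset.sum_le_sum_of_subset_of_nonneg
    · intro k hk
      rw [Finset.mem_range]
      exact (Finset.mem_filter.1 hk).2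
    · intro k _ _
      positivity
  have h3 : ∑ k ∈ S.filter (fun k => ¬ k < M), ((k : ℝ) + 1) ^ (-γ) ≤ (M : ℝ) ^ (1 - γ) := by
    calc ∑ k ∈ S.filter (fun k => ¬ k < M), ((k : ℝ) + 1) ^ (-γ)
        ≤ ∑ _k ∈ S.filter (fun k => ¬ k < M), (M : ℝ) ^ (-γ) := by
          refine Finset.sum_le_sum fun k hk => ?_
          have hk2 : M ≤ k := not_lt.1 (Finset.mem_filter.1 hk).2
          have hk3 : (M : ℝ) ≤ k := by exact_mod_cast hk2
          exact Real.rpow_le_rpow_of_nonpos hM0 (by linarith) (by linarith)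
      _ = ((S.filter (fun k => ¬ k < M)).card : ℝ) * (M : ℝ) ^ (-γ) := by
          rw [Finset.sum_const, nsmul_eq_mul]
      _ ≤ (M : ℝ) * (M : ℝ) ^ (-γ) := by
          apply mul_le_mul_of_nonneg_right _ (by positivity)
          exact_mod_cast (Finset.card_filter_le _ _).trans hS
      _ = (M : ℝ) ^ (1 - γ) := by
          rw [sub_eq_add_neg, Real.rpow_add hM0, Real.rpow_one]
  calc _ ≤ (M : ℝ) ^ (1 - γ) / (1 - γ) + (M : ℝ) ^ (1 - γ) := add_le_add h2 h3
    _ = _ := by ring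

theorem sum_int {γ : ℝ} (h0 : 0 ≤ γ) (h1 : γ < 1) (S : Finset ℤ) (hS : S.Nonempty) (c : ℤ) :
    ∑ h ∈ S, (1 + |(c : ℝ) - h|) ^ (-γ) ≤ 2 * (1 / (1 - γ) + 1) * (S.card : ℝ) ^ (1 - γ) := by
  classical
  rw [← Finset.sum_filter_add_sum_filter_not S (fun h => h ≤ c)]
  have key : ∀ S' : Finset ℤ, S' ⊆ S → Set.InjOn (fun h : ℤ => (c - h).natAbs) S' →
      ∑ h ∈ S', (1 + |(c : ℝ) - h|) ^ (-γ) ≤ (1 / (1 - γ) + 1) * (S.card : ℝ) ^ (1 - γ) := by
    intro S' hS' hinj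
    have e : ∑ h ∈ S', (1 + |(c : ℝ) - h|) ^ (-γ) =
        ∑ k ∈ S'.image (fun h : ℤ => (c - h).natAbs), ((k : ℝ) + 1) ^ (-γ) := by
      rw [Finset.sum_image hinj]
      refine Finset.sum_congr rfl fun h _ => ?_
      congr 1
      rw [Nat.cast_natAbs]
      push_cast
      ring
    rw [e]
    apply sum_nat h0 h1 _ _ hS.card_pos
    exact Finset.card_image_le.trans (Finset.card_le_card hS')
  have h2 := key (S.filter (fun h => h ≤ c)) (Finset.filter_subset _ _) (by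
    intro x hx y hy hxy
    have hx' := (Finset.mem_filter.1 (Finset.mem_coe.1 hx)).2
    have hy' := (Finset.mem_filter.1 (Finset.mem_coe.1 hy)).2
    have : (c - x).natAbs = (c - y).natAbs := hxy
    omega)
  have h3 := key (S.filter (fun h => ¬ h ≤ c)) (Finset.filter_subset _ _) (by
    intro x hx y hy hxy
    have hx' := (Finset.mem_filter.1 (Finset.mem_coe.1 hx)).2
    have hy' := (Finset.mem_filter.1 (Finset.mem_coe.1 hy)).2
    have : (c - x).natAbs = (c - y).natAbs := hxy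
    omega)
  calc _ ≤ (1 / (1 - γ) + 1) * (S.card : ℝ) ^ (1 - γ) + (1 / (1 - γ) + 1) * (S.card : ℝ) ^ (1 - γ) :=
        add_le_add h2 h3
    _ = _ := by ring

/-- The strip of width `2 A` around the planar line `x = g c + t c`. -/
noncomputable def stp (A : ℝ) (g : ℤ → ℝ) (c : ℤ) (p : ℝ × ℝ) : ℝ≥0∞ :=
  {p : ℝ × ℝ | |p.2 + p.1 * (-(c : ℝ)) - g c| ≤ A}.indicator (fun _ => 1) p

theorem stp_meas (A : ℝ) (g : ℤ → ℝ) (c : ℤ) : Measurable (stp A g c) :=
  measurable_const.indicator (Pool.Agent.W772.strip_meas A (-(c : ℝ)) (g c))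

theorem stp_rpow (A : ℝ) (g : ℤ → ℝ) (c : ℤ) (p : ℝ × ℝ) {r : ℝ} (hr : 0 < r) : stp A g c p ^ r = stp A g c p := by
  unfold stp
  by_cases h : p ∈ {p : ℝ × ℝ | |p.2 + p.1 * (-(c : ℝ)) - g c| ≤ A}
  · rw [indicator_of_mem h, ENNReal.one_rpow]
  · rw [indicator_of_notMem h, ENNReal.zero_rpow_of_pos hr]

theorem stp_int {A : ℝ} (g : ℤ → ℝ) (c : ℤ) (t : ℝ) :
    ∫⁻ x, stp A g c (t, x) = ENNReal.ofReal (2 * A) := by
  have e : (fun x : ℝ => stp A g c (t, x)) = {x : ℝ | |x + (t * (-(c : ℝ)) - g c)| ≤ A}.indicator (fun _ => 1) := by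
    funext x
    unfold stp
    rw [indicator_apply, indicator_apply]
    simp only [mem_ofPred_eq, add_sub_assoc]
  rw [e, lintegral_indicator_const, one_mul, Pool.Agent.W772.vol_strip]
  exact (isClosed_le (by fun_prop) continuous_const).measurableSet

theorem pair_int {A L : ℝ} (hA : 0 < A) (hL : 0 ≤ L) (g : ℤ → ℝ) (c c' : ℤ) :
    ∫⁻ t in Icc (-L) L, ∫⁻ x, stp A g c (t, x) * stp A g c' (t, x) ≤
      ENNReal.ofReal (2 * A * (2 * L + 8 * A) * (1 + |(c : ℝ) - c'|)⁻¹) := by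
  have h1 : ∀ t, ∫⁻ x, stp A g c (t, x) * stp A g c' (t, x) ≤
      {w : ℝ | |w| ≤ 2 * A}.indicator (fun _ => ENNReal.ofReal (2 * A))
        ((t * (-(c : ℝ)) - g c) - (t * (-(c' : ℝ)) - g c')) := by
    intro t
    have e : (fun x : ℝ => stp A g c (t, x) * stp A g c' (t, x)) =
        ({x : ℝ | |x + (t * (-(c : ℝ)) - g c)| ≤ A} ∩ {x : ℝ | |x + (t * (-(c' : ℝ)) - g c')| ≤ A}).indicator
          (fun _ => 1) := by
      funext x
      unfold stp
      rw [indicator_apply, indicator_apply, indicator_apply]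
      simp only [mem_ofPred_eq, mem_inter_iff, add_sub_assoc]
      by_cases h1 : |x + (t * (-(c : ℝ)) - g c)| ≤ A
      · by_cases h2 : |x + (t * (-(c' : ℝ)) - g c')| ≤ A
        · rw [if_pos h1, if_pos h2, if_pos ⟨h1, h2⟩, one_mul]
        · rw [if_neg h2, mul_zero, if_neg (fun h => h2 h.2)]
      · rw [if_neg h1, zero_mul, if_neg (fun h => h1 h.1)]
    have hm : ∀ k : ℝ, MeasurableSet {x : ℝ | |x + k| ≤ A} := fun k =>
      (isClosed_le (by fun_prop) continuous_const).measurableSet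
    rw [e, lintegral_indicator_const ((hm _).inter (hm _)), one_mul]
    exact Pool.Agent.W772.pair_z hA.le _ _
  refine (lintegral_mono fun t => h1 t).trans ?_
  by_cases hc : c = c'
  · subst hc
    have h2 : ∀ t : ℝ, {w : ℝ | |w| ≤ 2 * A}.indicator (fun _ => ENNReal.ofReal (2 * A))
        ((t * (-(c : ℝ)) - g c) - (t * (-(c : ℝ)) - g c)) ≤ ENNReal.ofReal (2 * A) := fun t =>
      indicator_le_self' (fun _ _ => zero_le) _
    refine (lintegral_mono fun t => h2 t).trans ?_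
    rw [setLIntegral_const, Real.volume_Icc, ← ENNReal.ofReal_mul (by positivity)]
    apply ENNReal.ofReal_le_ofReal
    simp only [sub_self, abs_zero, add_zero, inv_one, mul_one]
    nlinarith
  · have hne : (-(c : ℝ)) - (-(c' : ℝ)) ≠ 0 := by
      intro h
      apply hc
      have : (c : ℝ) = c' := by linarith
      exact_mod_cast this
    have hms : MeasurableSet {t : ℝ | |t * ((-(c : ℝ)) - (-(c' : ℝ))) - (g c - g c')| ≤ 2 * A} :=
      (isClosed_le (by fun_prop) continuous_const).measurableSet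
    calc _ ≤ ∫⁻ t : ℝ, {w : ℝ | |w| ≤ 2 * A}.indicator (fun _ => ENNReal.ofReal (2 * A))
          ((t * (-(c : ℝ)) - g c) - (t * (-(c' : ℝ)) - g c')) := setLIntegral_le_lintegral _ _
      _ = ∫⁻ t : ℝ, {t : ℝ | |t * ((-(c : ℝ)) - (-(c' : ℝ))) - (g c - g c')| ≤ 2 * A}.indicator
          (fun _ => ENNReal.ofReal (2 * A)) t := by
          refine lintegral_congr fun t => ?_
          have e : (t * (-(c : ℝ)) - g c) - (t * (-(c' : ℝ)) - g c') =
            t * ((-(c : ℝ)) - (-(c' : ℝ))) - (g c - g c') := by ring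
          rw [e]
          rfl
      _ = ENNReal.ofReal (2 * A) * ENNReal.ofReal (4 * A * (1 / |(-(c : ℝ)) - (-(c' : ℝ))|)) := by
          rw [lintegral_indicator_const hms, Pool.Agent.W772.vol_time hne]
      _ ≤ _ := by
          rw [← ENNReal.ofReal_mul (by positivity)]
          apply ENNReal.ofReal_le_ofReal
          have e : |(-(c : ℝ)) - (-(c' : ℝ))| = |(c : ℝ) - c'| := by
            rw [← abs_neg]
            congr 1
            ring
          rw [e]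
          have h1 : (1 : ℝ) ≤ |(c : ℝ) - c'| := by
            have : (1 : ℤ) ≤ |c - c'| := Int.one_le_abs (sub_ne_zero.2 hc)
            have h2 : ((1 : ℤ) : ℝ) ≤ (|c - c'| : ℤ) := by exact_mod_cast this
            push_cast at h2
            exact h2
          have h2 : 1 / |(c : ℝ) - c'| ≤ 2 * (1 + |(c : ℝ) - c'|)⁻¹ := by
            rw [← one_div, ← div_eq_mul_one_div, div_le_div_iff₀ (by linarith) (by linarith)]
            linarith
          calc 2 * A * (4 * A * (1 / |(c : ℝ) - c'|)) ≤ 2 * A * (4 * A * (2 * (1 + |(c : ℝ) - c'|)⁻¹)) := by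
                gcongr
            _ = 2 * A * (8 * A) * (1 + |(c : ℝ) - c'|)⁻¹ := by ring
            _ ≤ _ := by
                gcongr
                linarith

/-- **The planar estimate.** -/
theorem planar {A L r : ℝ} (hA : 0 < A) (hL : 0 ≤ L) (hr : 1 < r) :
    ∃ C : ℝ, 0 < C ∧ ∀ (g : ℤ → ℝ) (S : Finset ℤ), S.Nonempty →
      ∫⁻ t in Icc (-L) L, ∫⁻ x, (∑ c ∈ S, stp A g c (t, x)) ^ (1 + r) ≤
        ENNReal.ofReal (C * (S.card : ℝ) ^ r) := by
  have hr0 : 0 < r := by linarith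
  set γ : ℝ := 1 / r with hγ
  have hγ0 : 0 < γ := by positivity
  have hγ1 : γ < 1 := by rw [hγ, div_lt_one hr0]; exact hr
  set E : ℝ := 2 * (1 / (1 - γ) + 1) with hE
  have hE0 : 0 < E := by
    have : 0 < 1 - γ := by linarith
    positivity
  set D : ℝ := 2 * A * (2 * L + 8 * A) with hD
  have hD0 : 0 < D := by positivity
  refine ⟨D * E ^ r, by positivity, ?_⟩
  intro g S hS
  have hM0 : (0 : ℝ) < S.card := by exact_mod_cast hS.card_pos
  -- the weights
  set ω : ℤ → ℤ → ℝ := fun c c' => (1 + |(c : ℝ) - c'|) ^ (-γ) with hω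
  have hω0 : ∀ c c', 0 < ω c c' := fun c c' => by
    have : 0 < 1 + |(c : ℝ) - c'| := by positivity
    exact Real.rpow_pos_of_pos this _
  set Ω : ℤ → ℤ → ℝ≥0∞ := fun c c' => ENNReal.ofReal (ω c c') with hΩ
  have hΩ0 : ∀ c c', Ω c c' ≠ 0 := fun c c' => (ENNReal.ofReal_pos.2 (hω0 c c')).ne'
  have hΩt : ∀ c c', Ω c c' ≠ ∞ := fun c c' => ENNReal.ofReal_ne_top
  have hΩsum : ∀ c, ∑ c' ∈ S, Ω c c' ≤ ENNReal.ofReal (E * (S.card : ℝ) ^ (1 - γ)) := by
    intro c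
    show ∑ c' ∈ S, ENNReal.ofReal (ω c c') ≤ _
    rw [← ENNReal.ofReal_sum_of_nonneg (fun c' _ => (hω0 c c').le)]
    exact ENNReal.ofReal_le_ofReal (sum_int hγ0.le hγ1 S hS c)
  have hm : ∀ c, Measurable (fun p : ℝ × ℝ => stp A g c p) := fun c => stp_meas A g c
  have hpt : ∀ p : ℝ × ℝ, (∑ c ∈ S, stp A g c p) ^ (1 + r) ≤ ∑ c ∈ S, (∑ c' ∈ S, Ω c c') ^ (r - 1) *
      ∑ c' ∈ S, (Ω c c' * (Ω c c')⁻¹ ^ r) * (stp A g c p * stp A g c' p) := by
    intro p
    rw [ENNReal.rpow_add_of_nonneg _ _ zero_le_one hr0.le, ENNReal.rpow_one, Finset.sum_mul]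
    refine Finset.sum_le_sum fun c _ => ?_
    have h := pw S (fun c' => Ω c c') (fun c' => (Ω c c')⁻¹ * stp A g c' p) hr.le
    have e1 : ∑ c' ∈ S, Ω c c' * ((Ω c c')⁻¹ * stp A g c' p) = ∑ c' ∈ S, stp A g c' p := by
      refine Finset.sum_congr rfl fun k _ => ?_
      rw [← mul_assoc, ENNReal.mul_inv_cancel (hΩ0 c k) (hΩt c k), one_mul]
    rw [e1] at h
    refine (mul_le_mul' (le_refl (stp A g c p)) h).trans (le_of_eq ?_)
    rw [mul_left_comm]
    congr 1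
    rw [Finset.mul_sum]
    refine Finset.sum_congr rfl fun c' _ => ?_
    rw [ENNReal.mul_rpow_of_nonneg _ _ hr0.le, stp_rpow A g c' p hr0]
    ring
  have hmt : ∀ c c', Measurable (fun p : ℝ × ℝ => (Ω c c' * (Ω c c')⁻¹ ^ r) * (stp A g c p * stp A g c' p)) :=
    fun c c' => ((hm c).mul (hm c')).const_mul _
  have hms : ∀ c, Measurable (fun p : ℝ × ℝ => (∑ c' ∈ S, Ω c c') ^ (r - 1) *
      ∑ c' ∈ S, (Ω c c' * (Ω c c')⁻¹ ^ r) * (stp A g c p * stp A g c' p)) :=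
    fun c => (Finset.measurable_fun_sum _ fun c' _ => hmt c c').const_mul _
  set π : Measure (ℝ × ℝ) := (volume.restrict (Icc (-L) L)).prod volume with hπ
  have hit : ∀ f : ℝ × ℝ → ℝ≥0∞, Measurable f → ∫⁻ t in Icc (-L) L, ∫⁻ x, f (t, x) = ∫⁻ p, f p ∂π := by
    intro f hf
    rw [hπ, lintegral_prod _ hf.aemeasurable]
  have hsumm : Measurable (fun p : ℝ × ℝ => (∑ c ∈ S, stp A g c p) ^ (1 + r)) :=
    (Finset.measurable_fun_sum _ fun c _ => hm c).pow_const _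
  rw [hit (fun p => (∑ c ∈ S, stp A g c p) ^ (1 + r)) hsumm]
  calc ∫⁻ p, (∑ c ∈ S, stp A g c p) ^ (1 + r) ∂π
      ≤ ∫⁻ p, ∑ c ∈ S, (∑ c' ∈ S, Ω c c') ^ (r - 1) *
          ∑ c' ∈ S, (Ω c c' * (Ω c c')⁻¹ ^ r) * (stp A g c p * stp A g c' p) ∂π :=
        lintegral_mono hpt
    _ = ∑ c ∈ S, (∑ c' ∈ S, Ω c c') ^ (r - 1) *
          ∑ c' ∈ S, (Ω c c' * (Ω c c')⁻¹ ^ r) * ∫⁻ p, stp A g c p * stp A g c' p ∂π := by
        rw [lintegral_finsetSum _ (fun c _ => hms c)]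
        refine Finset.sum_congr rfl fun c _ => ?_
        rw [lintegral_const_mul _ (Finset.measurable_fun_sum _ fun c' _ => hmt c c'),
          lintegral_finsetSum _ (fun c' _ => hmt c c')]
        congr 1
        refine Finset.sum_congr rfl fun c' _ => ?_
        have hcc : Measurable (fun p : ℝ × ℝ => stp A g c p * stp A g c' p) := (hm c).mul (hm c')
        rw [lintegral_const_mul _ hcc]
    _ ≤ ∑ c ∈ S, (∑ c' ∈ S, Ω c c') ^ (r - 1) *
          ∑ c' ∈ S, (Ω c c' * (Ω c c')⁻¹ ^ r) * (ENNReal.ofReal D * Ω c c' ^ r) := by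
        gcongr with c _ c' _
        rw [← hit (fun p => stp A g c p * stp A g c' p) ((hm c).mul (hm c'))]
        refine (pair_int hA hL g c c').trans (le_of_eq ?_)
        rw [ENNReal.ofReal_mul hD0.le]
        congr 1
        show _ = ENNReal.ofReal (ω c c') ^ r
        rw [ENNReal.ofReal_rpow_of_pos (hω0 c c')]
        congr 1
        show _ = ((1 + |(c : ℝ) - c'|) ^ (-γ)) ^ r
        have hpos : 0 ≤ 1 + |(c : ℝ) - c'| := by positivity
        rw [← Real.rpow_mul hpos, hγ]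
        have : -(1 / r) * r = -1 := by field_simp
        rw [this, Real.rpow_neg_one]
    _ = ∑ c ∈ S, (∑ c' ∈ S, Ω c c') ^ (r - 1) * ∑ c' ∈ S, Ω c c' * ENNReal.ofReal D := by
        refine Finset.sum_congr rfl fun c _ => ?_
        congr 1
        refine Finset.sum_congr rfl fun c' _ => ?_
        have h1 : (Ω c c')⁻¹ ^ r * Ω c c' ^ r = 1 := by
          rw [← ENNReal.mul_rpow_of_nonneg _ _ hr0.le, ENNReal.inv_mul_cancel (hΩ0 c c') (hΩt c c'),
            ENNReal.one_rpow]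
        calc Ω c c' * (Ω c c')⁻¹ ^ r * (ENNReal.ofReal D * Ω c c' ^ r)
            = Ω c c' * ((Ω c c')⁻¹ ^ r * Ω c c' ^ r) * ENNReal.ofReal D := by ring
          _ = _ := by rw [h1, mul_one]
    _ = ∑ c ∈ S, (∑ c' ∈ S, Ω c c') ^ r * ENNReal.ofReal D := by
        refine Finset.sum_congr rfl fun c _ => ?_
        rw [← Finset.sum_mul, ← mul_assoc]
        congr 1
        have e1 : (∑ c' ∈ S, Ω c c') ^ r = (∑ c' ∈ S, Ω c c') ^ (r - 1) * (∑ c' ∈ S, Ω c c') ^ (1 : ℝ) := by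
          rw [← ENNReal.rpow_add_of_nonneg _ _ (by linarith) (by norm_num)]
          congr 1
          ring
        rw [e1, ENNReal.rpow_one]
    _ ≤ ∑ _c ∈ S, (ENNReal.ofReal (E * (S.card : ℝ) ^ (1 - γ))) ^ r * ENNReal.ofReal D := by
        gcongr with c _
        exact hΩsum c
    _ = ENNReal.ofReal (D * E ^ r * (S.card : ℝ) ^ r) := by
        rw [Finset.sum_const, nsmul_eq_mul, ENNReal.ofReal_rpow_of_pos (by positivity), ← ENNReal.ofReal_natCast,
          ← ENNReal.ofReal_mul (by positivity), ← ENNReal.ofReal_mul (by positivity)]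
        congr 1
        rw [Real.mul_rpow hE0.le (by positivity), ← Real.rpow_mul hM0.le]
        have e1 : (S.card : ℝ) ^ r = (S.card : ℝ) * (S.card : ℝ) ^ ((1 - γ) * r) := by
          have : r = 1 + (1 - γ) * r := by rw [hγ]; field_simp; ring
          conv_lhs => rw [this]
          rw [Real.rpow_add hM0, Real.rpow_one]
        rw [e1]
        ring

end Pool.Agent.R134.Kak
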