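import Pool.Agent.R134.Kak.Planar

set_option autoImplicit false

/-! The planar estimate for arbitrary families of bounded multiplicity. -/

open MeasureTheory Set ENNReal NNReal

namespace Pool.Agent.R134.Kak

/-- The strip of width `2 A` around the planar line `x = g i + t u i`. -/
noncomputable def stq {ι : Type} (A : ℝ) (u g : ι → ℝ) (i : ι) (p : ℝ × ℝ) : ℝ≥0∞ :=
  {p : ℝ × ℝ | |p.2 + p.1 * (-(u i)) - g i| ≤ A}.indicator (fun _ => 1) p

variable {ι : Type}

theorem stq_meas (A : ℝ) (u g : ι → ℝ) (c : ι) : Measurable (stq A u g c) :=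
  measurable_const.indicator (Pool.Agent.W772.strip_meas A (-(u c)) (g c))

theorem stq_rpow (A : ℝ) (u g : ι → ℝ) (c : ι) (p : ℝ × ℝ) {r : ℝ} (hr : 0 < r) :
    stq A u g c p ^ r = stq A u g c p := by
  unfold stq
  by_cases h : p ∈ {p : ℝ × ℝ | |p.2 + p.1 * (-(u c)) - g c| ≤ A}
  · rw [indicator_of_mem h, ENNReal.one_rpow]
  · rw [indicator_of_notMem h, ENNReal.zero_rpow_of_pos hr]

theorem pair_int' {A L : ℝ} (hA : 0 < A) (hL : 0 ≤ L) (u g : ι → ℝ) (c c' : ι) :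
    ∫⁻ t in Icc (-L) L, ∫⁻ x, stq A u g c (t, x) * stq A u g c' (t, x) ≤
      ENNReal.ofReal (2 * A * (4 * L + 8 * A) * (1 + |u c - u c'|)⁻¹) := by
  have h1 : ∀ t, ∫⁻ x, stq A u g c (t, x) * stq A u g c' (t, x) ≤
      {w : ℝ | |w| ≤ 2 * A}.indicator (fun _ => ENNReal.ofReal (2 * A))
        ((t * (-(u c)) - g c) - (t * (-(u c')) - g c')) := by
    intro t
    have e : (fun x : ℝ => stq A u g c (t, x) * stq A u g c' (t, x)) =
        ({x : ℝ | |x + (t * (-(u c)) - g c)| ≤ A} ∩ {x : ℝ | |x + (t * (-(u c')) - g c')| ≤ A}).indicator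
          (fun _ => 1) := by
      funext x
      unfold stq
      rw [indicator_apply, indicator_apply, indicator_apply]
      simp only [mem_ofPred_eq, mem_inter_iff, add_sub_assoc]
      by_cases h1 : |x + (t * (-(u c)) - g c)| ≤ A
      · by_cases h2 : |x + (t * (-(u c')) - g c')| ≤ A
        · rw [if_pos h1, if_pos h2, if_pos ⟨h1, h2⟩, one_mul]
        · rw [if_neg h2, mul_zero, if_neg (fun h => h2 h.2)]
      · rw [if_neg h1, zero_mul, if_neg (fun h => h1 h.1)]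
    have hm : ∀ k : ℝ, MeasurableSet {x : ℝ | |x + k| ≤ A} := fun k =>
      (isClosed_le (by fun_prop) continuous_const).measurableSet
    rw [e, lintegral_indicator_const ((hm _).inter (hm _)), one_mul]
    exact Pool.Agent.W772.pair_z hA.le _ _
  refine (lintegral_mono fun t => h1 t).trans ?_
  by_cases hc : |u c - u c'| ≤ 1
  · have h2 : ∀ t : ℝ, {w : ℝ | |w| ≤ 2 * A}.indicator (fun _ => ENNReal.ofReal (2 * A))
        ((t * (-(u c)) - g c) - (t * (-(u c')) - g c')) ≤ ENNReal.ofReal (2 * A) := fun t =>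
      indicator_le_self' (fun _ _ => zero_le) _
    refine (lintegral_mono fun t => h2 t).trans ?_
    rw [setLIntegral_const, Real.volume_Icc, ← ENNReal.ofReal_mul (by positivity)]
    apply ENNReal.ofReal_le_ofReal
    have h3 : 0 < 1 + |u c - u c'| := by positivity
    have h4 : (1 : ℝ) / 2 ≤ (1 + |u c - u c'|)⁻¹ := by
      rw [one_div]
      exact inv_anti₀ h3 (by linarith)
    have e5 : L - -L = 2 * L := by ring
    rw [e5]
    have h6 : 2 * A * (2 * L) ≤ 2 * A * (4 * L + 8 * A) * (1 / 2) := by nlinarith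
    exact h6.trans (mul_le_mul_of_nonneg_left h4 (by positivity))
  · rw [not_le] at hc
    have hne : (-(u c)) - (-(u c')) ≠ 0 := by
      intro h
      have : u c - u c' = 0 := by linarith
      rw [this, abs_zero] at hc
      linarith
    have hms : MeasurableSet {t : ℝ | |t * ((-(u c)) - (-(u c'))) - (g c - g c')| ≤ 2 * A} :=
      (isClosed_le (by fun_prop) continuous_const).measurableSet
    calc _ ≤ ∫⁻ t : ℝ, {w : ℝ | |w| ≤ 2 * A}.indicator (fun _ => ENNReal.ofReal (2 * A))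
          ((t * (-(u c)) - g c) - (t * (-(u c')) - g c')) := setLIntegral_le_lintegral _ _
      _ = ∫⁻ t : ℝ, {t : ℝ | |t * ((-(u c)) - (-(u c'))) - (g c - g c')| ≤ 2 * A}.indicator
          (fun _ => ENNReal.ofReal (2 * A)) t := by
          refine lintegral_congr fun t => ?_
          have e : (t * (-(u c)) - g c) - (t * (-(u c')) - g c') =
            t * ((-(u c)) - (-(u c'))) - (g c - g c') := by ring
          rw [e]
          rfl
      _ = ENNReal.ofReal (2 * A) * ENNReal.ofReal (4 * A * (1 / |(-(u c)) - (-(u c'))|)) := by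
          rw [lintegral_indicator_const hms, Pool.Agent.W772.vol_time hne]
      _ ≤ _ := by
          rw [← ENNReal.ofReal_mul (by positivity)]
          apply ENNReal.ofReal_le_ofReal
          have e : |(-(u c)) - (-(u c'))| = |u c - u c'| := by
            rw [← abs_neg]
            congr 1
            ring
          rw [e]
          have h2 : 1 / |u c - u c'| ≤ 2 * (1 + |u c - u c'|)⁻¹ := by
            rw [← one_div, ← div_eq_mul_one_div, div_le_div_iff₀ (by linarith) (by linarith)]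
            linarith
          calc 2 * A * (4 * A * (1 / |u c - u c'|)) ≤ 2 * A * (4 * A * (2 * (1 + |u c - u c'|)⁻¹)) := by
                gcongr
            _ = 2 * A * (8 * A) * (1 + |u c - u c'|)⁻¹ := by ring
            _ ≤ _ := by
                gcongr
                linarith

/-- **The planar estimate**, under a bound for the sums of the powers of the distances. -/
theorem planar_gen {A L r E : ℝ} (hA : 0 < A) (hL : 0 ≤ L) (hr : 1 < r) (hE0 : 0 < E) (u g : ι → ℝ)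
    (S : Finset ι) (hS : S.Nonempty)
    (hsum : ∀ c ∈ S, ∑ c' ∈ S, (1 + |u c - u c'|) ^ (-(1 / r)) ≤ E * (S.card : ℝ) ^ (1 - 1 / r)) :
      ∫⁻ t in Icc (-L) L, ∫⁻ x, (∑ c ∈ S, stq A u g c (t, x)) ^ (1 + r) ≤
        ENNReal.ofReal (2 * A * (4 * L + 8 * A) * E ^ r * (S.card : ℝ) ^ r) := by
  have hr0 : 0 < r := by linarith
  set γ : ℝ := 1 / r with hγ
  set D : ℝ := 2 * A * (4 * L + 8 * A) with hD
  have hD0 : 0 < D := by positivity
  have hM0 : (0 : ℝ) < S.card := by exact_mod_cast hS.card_pos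
  -- the weights
  set ω : ι → ι → ℝ := fun c c' => (1 + |u c - u c'|) ^ (-γ) with hω
  have hω0 : ∀ c c', 0 < ω c c' := fun c c' => by
    have : 0 < 1 + |u c - u c'| := by positivity
    exact Real.rpow_pos_of_pos this _
  set Ω : ι → ι → ℝ≥0∞ := fun c c' => ENNReal.ofReal (ω c c') with hΩ
  have hΩ0 : ∀ c c', Ω c c' ≠ 0 := fun c c' => (ENNReal.ofReal_pos.2 (hω0 c c')).ne'
  have hΩt : ∀ c c', Ω c c' ≠ ∞ := fun c c' => ENNReal.ofReal_ne_top
  have hΩsum : ∀ c ∈ S, ∑ c' ∈ S, Ω c c' ≤ ENNReal.ofReal (E * (S.card : ℝ) ^ (1 - γ)) := by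
    intro c hc
    show ∑ c' ∈ S, ENNReal.ofReal (ω c c') ≤ _
    rw [← ENNReal.ofReal_sum_of_nonneg (fun c' _ => (hω0 c c').le)]
    exact ENNReal.ofReal_le_ofReal (hsum c hc)
  have hm : ∀ c, Measurable (fun p : ℝ × ℝ => stq A u g c p) := fun c => stq_meas A u g c
  have hpt : ∀ p : ℝ × ℝ, (∑ c ∈ S, stq A u g c p) ^ (1 + r) ≤ ∑ c ∈ S, (∑ c' ∈ S, Ω c c') ^ (r - 1) *
      ∑ c' ∈ S, (Ω c c' * (Ω c c')⁻¹ ^ r) * (stq A u g c p * stq A u g c' p) := by
    intro p
    rw [ENNReal.rpow_add_of_nonneg _ _ zero_le_one hr0.le, ENNReal.rpow_one, Finset.sum_mul]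
    refine Finset.sum_le_sum fun c _ => ?_
    have h := pw S (fun c' => Ω c c') (fun c' => (Ω c c')⁻¹ * stq A u g c' p) hr.le
    have e1 : ∑ c' ∈ S, Ω c c' * ((Ω c c')⁻¹ * stq A u g c' p) = ∑ c' ∈ S, stq A u g c' p := by
      refine Finset.sum_congr rfl fun k _ => ?_
      rw [← mul_assoc, ENNReal.mul_inv_cancel (hΩ0 c k) (hΩt c k), one_mul]
    rw [e1] at h
    refine (mul_le_mul' (le_refl (stq A u g c p)) h).trans (le_of_eq ?_)
    rw [mul_left_comm]
    congr 1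
    rw [Finset.mul_sum]
    refine Finset.sum_congr rfl fun c' _ => ?_
    rw [ENNReal.mul_rpow_of_nonneg _ _ hr0.le, stq_rpow A u g c' p hr0]
    ring
  have hmt : ∀ c c', Measurable (fun p : ℝ × ℝ => (Ω c c' * (Ω c c')⁻¹ ^ r) * (stq A u g c p * stq A u g c' p)) :=
    fun c c' => ((hm c).mul (hm c')).const_mul _
  have hms : ∀ c, Measurable (fun p : ℝ × ℝ => (∑ c' ∈ S, Ω c c') ^ (r - 1) *
      ∑ c' ∈ S, (Ω c c' * (Ω c c')⁻¹ ^ r) * (stq A u g c p * stq A u g c' p)) :=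
    fun c => (Finset.measurable_fun_sum _ fun c' _ => hmt c c').const_mul _
  set π : Measure (ℝ × ℝ) := (volume.restrict (Icc (-L) L)).prod volume with hπ
  have hit : ∀ f : ℝ × ℝ → ℝ≥0∞, Measurable f → ∫⁻ t in Icc (-L) L, ∫⁻ x, f (t, x) = ∫⁻ p, f p ∂π := by
    intro f hf
    rw [hπ, lintegral_prod _ hf.aemeasurable]
  have hsumm : Measurable (fun p : ℝ × ℝ => (∑ c ∈ S, stq A u g c p) ^ (1 + r)) :=
    (Finset.measurable_fun_sum _ fun c _ => hm c).pow_const _
  rw [hit (fun p => (∑ c ∈ S, stq A u g c p) ^ (1 + r)) hsumm]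
  calc ∫⁻ p, (∑ c ∈ S, stq A u g c p) ^ (1 + r) ∂π
      ≤ ∫⁻ p, ∑ c ∈ S, (∑ c' ∈ S, Ω c c') ^ (r - 1) *
          ∑ c' ∈ S, (Ω c c' * (Ω c c')⁻¹ ^ r) * (stq A u g c p * stq A u g c' p) ∂π :=
        lintegral_mono hpt
    _ = ∑ c ∈ S, (∑ c' ∈ S, Ω c c') ^ (r - 1) *
          ∑ c' ∈ S, (Ω c c' * (Ω c c')⁻¹ ^ r) * ∫⁻ p, stq A u g c p * stq A u g c' p ∂π := by
        rw [lintegral_finsetSum _ (fun c _ => hms c)]
        refine Finset.sum_congr rfl fun c _ => ?_
        rw [lintegral_const_mul _ (Finset.measurable_fun_sum _ fun c' _ => hmt c c'),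
          lintegral_finsetSum _ (fun c' _ => hmt c c')]
        congr 1
        refine Finset.sum_congr rfl fun c' _ => ?_
        have hcc : Measurable (fun p : ℝ × ℝ => stq A u g c p * stq A u g c' p) := (hm c).mul (hm c')
        rw [lintegral_const_mul _ hcc]
    _ ≤ ∑ c ∈ S, (∑ c' ∈ S, Ω c c') ^ (r - 1) *
          ∑ c' ∈ S, (Ω c c' * (Ω c c')⁻¹ ^ r) * (ENNReal.ofReal D * Ω c c' ^ r) := by
        gcongr with c _ c' _
        rw [← hit (fun p => stq A u g c p * stq A u g c' p) ((hm c).mul (hm c'))]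
        refine (pair_int' hA hL u g c c').trans (le_of_eq ?_)
        rw [ENNReal.ofReal_mul hD0.le]
        congr 1
        show _ = ENNReal.ofReal (ω c c') ^ r
        rw [ENNReal.ofReal_rpow_of_pos (hω0 c c')]
        congr 1
        show _ = ((1 + |u c - u c'|) ^ (-γ)) ^ r
        have hpos : 0 ≤ 1 + |u c - u c'| := by positivity
        rw [← Real.rpow_mul hpos, hγ]
        have : -(1 / r) * r = -1 := by field_simp
        rw [this, Real.rpow_neg_one]
    _ = ∑ c ∈ S, (∑ c' ∈ S, Ω c c') ^ (r - 1) * ∑ c' ∈ S, Ω c c' * ENNReal.ofReal D := by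
        refine Finset.sum_congr rfl fun c _ => ?_
        congr 1
        refine Finset.sum_congr rfl fun c' _ => ?_
        have h1 : (Ω c c')⁻¹ ^ r * Ω c c' ^ r = 1 := by
          rw [← ENNReal.mul_rpow_of_nonneg _ _ hr0.le, ENNReal.inv_mul_cancel (hΩ0 c c') (hΩt c c'),
            ENNReal.one_rpow]
        calc Ω c c' * (Ω c c')⁻¹ ^ r * (ENNReal.ofReal D * Ω c c' ^ r)
            = Ω c c' * ((Ω c c')⁻¹ ^ r * Ω c c' ^ r) * ENNReal.ofReal D := by ring
          _ = _ := by rw [h1, mul_one]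
    _ = ∑ c ∈ S, (∑ c' ∈ S, Ω c c') ^ r * ENNReal.ofReal D := by
        refine Finset.sum_congr rfl fun c _ => ?_
        rw [← Finset.sum_mul, ← mul_assoc]
        congr 1
        have e1 : (∑ c' ∈ S, Ω c c') ^ r = (∑ c' ∈ S, Ω c c') ^ (r - 1) * (∑ c' ∈ S, Ω c c') ^ (1 : ℝ) := by
          rw [← ENNReal.rpow_add_of_nonneg _ _ (by linarith) (by norm_num)]
          congr 1
          ring
        rw [e1, ENNReal.rpow_one]
    _ ≤ ∑ _c ∈ S, (ENNReal.ofReal (E * (S.card : ℝ) ^ (1 - γ))) ^ r * ENNReal.ofReal D := by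
        refine Finset.sum_le_sum fun c hc => ?_
        gcongr
        exact hΩsum c hc
    _ = ENNReal.ofReal (D * E ^ r * (S.card : ℝ) ^ r) := by
        rw [Finset.sum_const, nsmul_eq_mul, ENNReal.ofReal_rpow_of_pos (by positivity), ← ENNReal.ofReal_natCast,
          ← ENNReal.ofReal_mul (by positivity), ← ENNReal.ofReal_mul (by positivity)]
        congr 1
        rw [Real.mul_rpow hE0.le (by positivity), ← Real.rpow_mul hM0.le]
        have e1 : (S.card : ℝ) ^ r = (S.card : ℝ) * (S.card : ℝ) ^ ((1 - γ) * r) := by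
          have : r = 1 + (1 - γ) * r := by rw [hγ]; field_simp; ring
          conv_lhs => rw [this]
          rw [Real.rpow_add hM0, Real.rpow_one]
        rw [e1]
        ring

/-- The sums for a family of bounded multiplicity. -/
theorem sum_mult {γ : ℝ} (h0 : 0 ≤ γ) (h1 : γ < 1) (κ : ℕ) (u : ι → ℝ) (S : Finset ι) (hS : S.Nonempty)
    (hM : ∀ c : ℤ, (S.filter (fun i => ⌊u i⌋ = c)).card ≤ κ) (i : ι) :
    ∑ i' ∈ S, (1 + |u i - u i'|) ^ (-γ) ≤
      (κ : ℝ) * 2 ^ γ * (2 * (1 / (1 - γ) + 1)) * (S.card : ℝ) ^ (1 - γ) := by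
  classical
  have hpt : ∀ i', (1 + |u i - u i'|) ^ (-γ) ≤ 2 ^ γ * (1 + |((⌊u i⌋ : ℤ) : ℝ) - (⌊u i'⌋ : ℤ)|) ^ (-γ) := by
    intro i'
    have h2 : 0 < 1 + |u i - u i'| := by positivity
    have h3 : 0 < 1 + |((⌊u i⌋ : ℤ) : ℝ) - (⌊u i'⌋ : ℤ)| := by positivity
    have h4 : 1 + |((⌊u i⌋ : ℤ) : ℝ) - (⌊u i'⌋ : ℤ)| ≤ 2 * (1 + |u i - u i'|) := by
      have g1 := Int.floor_le (u i)
      have g2 := Int.lt_floor_add_one (u i)
      have g3 := Int.floor_le (u i')
      have g4 := Int.lt_floor_add_one (u i')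
      have g5 : |((⌊u i⌋ : ℤ) : ℝ) - (⌊u i'⌋ : ℤ)| ≤ |u i - u i'| + 1 := by
        rw [abs_le]
        have g6 := le_abs_self (u i - u i')
        have g7 := neg_abs_le (u i - u i')
        constructor <;> linarith
      have g6 := abs_nonneg (u i - u i')
      linarith
    rw [Real.rpow_neg h2.le, Real.rpow_neg h3.le]
    have h5 : (1 + |((⌊u i⌋ : ℤ) : ℝ) - (⌊u i'⌋ : ℤ)|) ^ γ ≤ 2 ^ γ * (1 + |u i - u i'|) ^ γ := by
      rw [← Real.mul_rpow (by norm_num) h2.le]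
      exact Real.rpow_le_rpow h3.le h4 h0
    have h6 : 0 < (1 + |u i - u i'|) ^ γ := Real.rpow_pos_of_pos h2 _
    have h7 : 0 < (1 + |((⌊u i⌋ : ℤ) : ℝ) - (⌊u i'⌋ : ℤ)|) ^ γ := Real.rpow_pos_of_pos h3 _
    rw [inv_eq_one_div, inv_eq_one_div, mul_one_div, div_le_div_iff₀ h6 h7, one_mul]
    exact h5
  have hne : (S.image (fun i => ⌊u i⌋)).Nonempty := hS.image _
  have h2 := sum_int h0 h1 (S.image (fun i => ⌊u i⌋)) hne ⌊u i⌋
  have hκ : (0 : ℝ) ≤ κ := Nat.cast_nonneg κ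
  have hγ1 : 0 < 1 - γ := by linarith
  calc ∑ i' ∈ S, (1 + |u i - u i'|) ^ (-γ)
      ≤ ∑ i' ∈ S, 2 ^ γ * (1 + |((⌊u i⌋ : ℤ) : ℝ) - (⌊u i'⌋ : ℤ)|) ^ (-γ) :=
        Finset.sum_le_sum fun i' _ => hpt i'
    _ = 2 ^ γ * ∑ c ∈ S.image (fun i => ⌊u i⌋), ∑ i' ∈ S.filter (fun i => ⌊u i⌋ = c),
          (1 + |((⌊u i⌋ : ℤ) : ℝ) - (⌊u i'⌋ : ℤ)|) ^ (-γ) := by
        rw [← Finset.mul_sum]
        congr 1
        exact (Finset.sum_fiberwise_of_maps_to (fun i hi => Finset.mem_image_of_mem _ hi) _).symm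
    _ ≤ 2 ^ γ * ∑ c ∈ S.image (fun i => ⌊u i⌋), (κ : ℝ) * (1 + |((⌊u i⌋ : ℤ) : ℝ) - c|) ^ (-γ) := by
        apply mul_le_mul_of_nonneg_left _ (by positivity)
        refine Finset.sum_le_sum fun c _ => ?_
        rw [Finset.sum_congr rfl (fun i' hi' => by rw [(Finset.mem_filter.1 hi').2] :
          ∀ i' ∈ S.filter (fun i => ⌊u i⌋ = c), (1 + |((⌊u i⌋ : ℤ) : ℝ) - (⌊u i'⌋ : ℤ)|) ^ (-γ) =
            (1 + |((⌊u i⌋ : ℤ) : ℝ) - c|) ^ (-γ)), Finset.sum_const, nsmul_eq_mul]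
        apply mul_le_mul_of_nonneg_right _ (by positivity)
        exact_mod_cast hM c
    _ ≤ 2 ^ γ * ((κ : ℝ) * (2 * (1 / (1 - γ) + 1) * ((S.image (fun i => ⌊u i⌋)).card : ℝ) ^ (1 - γ))) := by
        rw [← Finset.mul_sum]
        gcongr
    _ ≤ 2 ^ γ * ((κ : ℝ) * (2 * (1 / (1 - γ) + 1) * (S.card : ℝ) ^ (1 - γ))) := by
        have h3 : ((S.image (fun i => ⌊u i⌋)).card : ℝ) ≤ S.card := by exact_mod_cast Finset.card_image_le
        have h4 : ((S.image (fun i => ⌊u i⌋)).card : ℝ) ^ (1 - γ) ≤ (S.card : ℝ) ^ (1 - γ) :=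
          Real.rpow_le_rpow (Nat.cast_nonneg _) h3 hγ1.le
        have h5 : 0 ≤ 2 * (1 / (1 - γ) + 1) := by positivity
        gcongr
    _ = _ := by ring

end Pool.Agent.R134.Kak
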