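import Mathlib

set_option autoImplicit false

/-! Splitting off the first coordinate. -/

open MeasureTheory Set ENNReal NNReal

namespace Pool.Agent.R134.Kak

/-- Euclidean space. -/
abbrev Vec (d : ℕ) : Type := EuclideanSpace ℝ (Fin d)

/-- All coordinates of a vector but the first one. -/
def tl {d : ℕ} (x : Vec (d + 1)) : Vec d := WithLp.toLp 2 (fun j => x j.succ)

theorem tl_cont {d : ℕ} : Continuous (tl : Vec (d + 1) → Vec d) := by
  unfold tl
  apply (PiLp.continuous_toLp 2 _).comp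
  exact continuous_pi fun j => by fun_prop

theorem norm_sq_split {d : ℕ} (x : Vec (d + 1)) : ‖x‖ ^ 2 = x 0 ^ 2 + ‖tl x‖ ^ 2 := by
  rw [EuclideanSpace.norm_sq_eq, EuclideanSpace.norm_sq_eq, Fin.sum_univ_succ]
  simp [tl, sq_abs]

theorem tl_add {d : ℕ} (x y : Vec (d + 1)) : tl (x + y) = tl x + tl y := rfl

theorem tl_sub {d : ℕ} (x y : Vec (d + 1)) : tl (x - y) = tl x - tl y := rfl

theorem tl_smul {d : ℕ} (c : ℝ) (x : Vec (d + 1)) : tl (c • x) = c • tl x := rfl

theorem norm_tl_le {d : ℕ} (x : Vec (d + 1)) : ‖tl x‖ ≤ ‖x‖ := by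
  have h := norm_sq_split x
  have h2 : ‖tl x‖ ^ 2 ≤ ‖x‖ ^ 2 := by nlinarith [sq_nonneg (x 0)]
  exact (sq_le_sq₀ (norm_nonneg _) (norm_nonneg _)).1 h2

theorem abs_zero_le {d : ℕ} (x : Vec (d + 1)) : |x 0| ≤ ‖x‖ := by
  have := PiLp.norm_apply_le x 0
  rwa [Real.norm_eq_abs] at this

theorem lint_split {d : ℕ} (G : ℝ → Vec d → ℝ≥0∞) (hG : Measurable (fun p : ℝ × Vec d => G p.1 p.2)) :
    ∫⁻ x : Vec (d + 1), G (x 0) (tl x) = ∫⁻ a : ℝ, ∫⁻ y : Vec d, G a y := by
  have hm1 : Measurable (fun x : Vec (d + 1) => G (x 0) (tl x)) := by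
    have : Measurable (fun x : Vec (d + 1) => (x 0, tl x)) :=
      (by fun_prop : Continuous (fun x : Vec (d + 1) => x 0)).measurable.prodMk tl_cont.measurable
    exact hG.comp this
  have h1 := (PiLp.volume_preserving_toLp (Fin (d + 1))).lintegral_comp hm1
  rw [← h1]
  have hm2 : Measurable (fun p : ℝ × (Fin d → ℝ) => G p.1 (WithLp.toLp 2 p.2)) := by
    have : Measurable (fun p : ℝ × (Fin d → ℝ) => (p.1, (WithLp.toLp 2 p.2 : Vec d))) :=
      measurable_fst.prodMk ((PiLp.continuous_toLp 2 _).measurable.comp measurable_snd)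
    exact hG.comp this
  have h2 := (volume_preserving_piFinSuccAbove (fun _ : Fin (d + 1) => ℝ) 0).lintegral_comp hm2
  refine Eq.trans ?_ (h2.trans ?_)
  · rfl
  · rw [Measure.volume_eq_prod, lintegral_prod _ hm2.aemeasurable]
    refine lintegral_congr fun a => ?_
    have hm3 : Measurable (fun y : Vec d => G a y) := hG.comp (measurable_const.prodMk measurable_id)
    exact (PiLp.volume_preserving_toLp (Fin d)).lintegral_comp hm3

/-- Rotating and splitting off the first coordinate. -/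
theorem lint_rot_split {d : ℕ} (U : Vec (d + 1) ≃ₗᵢ[ℝ] Vec (d + 1)) (G : ℝ → Vec d → ℝ≥0∞)
    (hG : Measurable (fun p : ℝ × Vec d => G p.1 p.2)) :
    ∫⁻ x : Vec (d + 1), G (U x 0) (tl (U x)) = ∫⁻ a : ℝ, ∫⁻ y : Vec d, G a y := by
  rw [← lint_split G hG]
  have hm1 : Measurable (fun x : Vec (d + 1) => G (x 0) (tl x)) := by
    have : Measurable (fun x : Vec (d + 1) => (x 0, tl x)) :=
      (by fun_prop : Continuous (fun x : Vec (d + 1) => x 0)).measurable.prodMk tl_cont.measurable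
    exact hG.comp this
  exact U.measurePreserving.lintegral_comp hm1

end Pool.Agent.R134.Kak
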