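import Pool.Agent.R134.Kak.Multi
import Pool.Agent.R134.Kak.Planar
import Pool.Agent.R134.Kak.Planar2
import Pool.Agent.R134.Kak.Split

set_option autoImplicit false

/-! The estimate for reducible families at scale one: induction on the dimension. -/

open MeasureTheory Set ENNReal NNReal

namespace Pool.Agent.R134.Kak

/-- Reducible families at scale one. -/
def Red (K : ℝ) {ι : Type} : (d : ℕ) → Finset ι → (ι → Vec d) → (ι → Vec d) → Prop
  | 0, _, _, _ => True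
  | 1, _, _, _ => True
  | d + 2, J, v, β => ∃ U : Vec (d + 2) ≃ₗᵢ[ℝ] Vec (d + 2),
      (∀ i ∈ J, ∀ i' ∈ J, |U (v i) 0 - U (v i') 0| ≤ 1 → |U (β i) 0 - U (β i') 0| ≤ K) ∧
      ∀ c : ℤ, Red K (d + 1) (J.filter (fun i => ⌊U (v i) 0⌋ = c)) (fun i => tl (U (v i))) (fun i => tl (U (β i)))

/-- Bounded multiplicity. -/
def Mult (κ : ℕ) {ι : Type} (d : ℕ) (J : Finset ι) (v : ι → Vec d) : Prop :=
  ∀ J' ⊆ J, (∀ i ∈ J', ∀ i' ∈ J', ‖v i - v i'‖ ^ 2 ≤ d) → J'.card ≤ κ

/-- The tube of a line, at the height `t`. -/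
noncomputable def tub {ι : Type} {d : ℕ} (A : ℝ) (v β : ι → Vec d) (i : ι) (p : ℝ × Vec d) : ℝ≥0∞ :=
  {p : ℝ × Vec d | ‖p.2 - (β i + p.1 • v i)‖ ≤ A}.indicator (fun _ => 1) p

theorem tub_meas {ι : Type} {d : ℕ} (A : ℝ) (v β : ι → Vec d) (i : ι) : Measurable (tub A v β i) := by
  apply measurable_const.indicator
  exact (isClosed_le (by fun_prop) continuous_const).measurableSet

theorem tub_int {ι : Type} {d : ℕ} (A : ℝ) (v β : ι → Vec d) (i : ι) (t : ℝ) :
    ∫⁻ x, tub A v β i (t, x) = volume (Metric.closedBall (0 : Vec d) A) := by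
  classical
  have e : (fun x : Vec d => tub A v β i (t, x)) =
      (Metric.closedBall (β i + t • v i) A).indicator (fun _ => 1) := by
    funext x
    unfold tub
    rw [indicator_apply, indicator_apply]
    simp only [mem_ofPred_eq, Metric.mem_closedBall, dist_eq_norm]
  rw [e, lintegral_indicator_const Metric.isClosed_closedBall.measurableSet, one_mul]
  rw [Measure.addHaar_closedBall_center]

open Classical in
/-- The position of a member of the class `c`. -/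
noncomputable def pick {ι : Type} (J : Finset ι) (cl : ι → ℤ) (b : ι → ℝ) (c : ℤ) : ℝ :=
  if h : ∃ i, i ∈ J ∧ cl i = c then b h.choose else 0

theorem pick_spec {ι : Type} {J : Finset ι} {a b : ι → ℝ} {K : ℝ}
    (h : ∀ i ∈ J, ∀ i' ∈ J, |a i - a i'| ≤ 1 → |b i - b i'| ≤ K) {i : ι} (hi : i ∈ J) :
    |b i - pick J (fun i => ⌊a i⌋) b ⌊a i⌋| ≤ K := by
  have hex : ∃ i', i' ∈ J ∧ ⌊a i'⌋ = ⌊a i⌋ := ⟨i, hi, rfl⟩
  have e : pick J (fun i => ⌊a i⌋) b ⌊a i⌋ = b hex.choose := by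
    unfold pick
    rw [dif_pos hex]
  rw [e]
  apply h i hi _ hex.choose_spec.1
  have h2 : ⌊a hex.choose⌋ = ⌊a i⌋ := hex.choose_spec.2
  exact (Int.abs_sub_lt_one_of_floor_eq_floor h2.symm).le

/-- A tube is contained in the product of a planar strip with a tube in lower dimension. -/
theorem tub_le {ι : Type} {d : ℕ} {A K L : ℝ} {J : Finset ι} {v β : ι → Vec (d + 1)}
    (U : Vec (d + 1) ≃ₗᵢ[ℝ] Vec (d + 1))
    (h : ∀ i ∈ J, ∀ i' ∈ J, |U (v i) 0 - U (v i') 0| ≤ 1 → |U (β i) 0 - U (β i') 0| ≤ K)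
    {i : ι} (hi : i ∈ J) {t : ℝ} (ht : |t| ≤ L) (x : Vec (d + 1)) :
    tub A v β i (t, x) ≤
      stp (A + K + L) (pick J (fun i => ⌊U (v i) 0⌋) (fun i => U (β i) 0)) ⌊U (v i) 0⌋ (t, U x 0) *
        tub A (fun i => tl (U (v i))) (fun i => tl (U (β i))) i (t, tl (U x)) := by
  unfold tub stp
  by_cases hx : ‖x - (β i + t • v i)‖ ≤ A
  · have hy : ‖U x - (U (β i) + t • U (v i))‖ ≤ A := by
      rw [← map_smul, ← map_add, ← map_sub, U.norm_map]
      exact hx
    have h0 := (abs_zero_le _).trans hy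
    have e0 : (U x - (U (β i) + t • U (v i))) 0 = U x 0 - (U (β i) 0 + t * U (v i) 0) := rfl
    rw [e0] at h0
    have h1 := (norm_tl_le _).trans hy
    rw [tl_sub, tl_add, tl_smul] at h1
    have h2 := pick_spec (a := fun i => U (v i) 0) (b := fun i => U (β i) 0) h hi
    have h3 : |U (v i) 0 - ⌊U (v i) 0⌋| ≤ 1 := by
      rw [abs_of_nonneg (sub_nonneg.2 (Int.floor_le _))]
      linarith [Int.lt_floor_add_one (U (v i) 0)]
    have h4 : |t * (U (v i) 0 - ⌊U (v i) 0⌋)| ≤ L := by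
      rw [abs_mul]
      calc |t| * |U (v i) 0 - ⌊U (v i) 0⌋| ≤ L * 1 :=
            mul_le_mul ht h3 (abs_nonneg _) ((abs_nonneg t).trans ht)
        _ = L := mul_one L
    rw [indicator_of_mem (show (t, tl (U x)) ∈ {p : ℝ × Vec d | ‖p.2 - (tl (U (β i)) + p.1 • tl (U (v i)))‖ ≤ A} from h1),
      indicator_of_mem (show (t, U x 0) ∈ {p : ℝ × ℝ | |p.2 + p.1 * (-((⌊U (v i) 0⌋ : ℤ) : ℝ)) -
        pick J (fun i => ⌊U (v i) 0⌋) (fun i => U (β i) 0) ⌊U (v i) 0⌋| ≤ A + K + L} from ?_), one_mul]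
    · exact indicator_le_self' (fun _ _ => zero_le) _
    · show |U x 0 + t * (-((⌊U (v i) 0⌋ : ℤ) : ℝ)) -
        pick J (fun i => ⌊U (v i) 0⌋) (fun i => U (β i) 0) ⌊U (v i) 0⌋| ≤ A + K + L
      have e : U x 0 + t * (-((⌊U (v i) 0⌋ : ℤ) : ℝ)) -
          pick J (fun i => ⌊U (v i) 0⌋) (fun i => U (β i) 0) ⌊U (v i) 0⌋ =
          (U x 0 - (U (β i) 0 + t * U (v i) 0)) +
          (U (β i) 0 - pick J (fun i => ⌊U (v i) 0⌋) (fun i => U (β i) 0) ⌊U (v i) 0⌋) +
          t * (U (v i) 0 - ⌊U (v i) 0⌋) := by ring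
      rw [e]
      exact (abs_add_three _ _ _).trans (by linarith)
  · rw [indicator_of_notMem (show (t, x) ∉ {p : ℝ × Vec (d + 1) | ‖p.2 - (β i + p.1 • v i)‖ ≤ A} from hx)]
    exact zero_le

theorem Mult.class_tl {κ : ℕ} {ι : Type} {d : ℕ} {J : Finset ι} {v : ι → Vec (d + 1)} (h : Mult κ (d + 1) J v)
    (U : Vec (d + 1) ≃ₗᵢ[ℝ] Vec (d + 1)) (c : ℤ) :
    Mult κ d (J.filter (fun i => ⌊U (v i) 0⌋ = c)) (fun i => tl (U (v i))) := by
  intro J' hJ' h2
  apply h J' (hJ'.trans (Finset.filter_subset _ _))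
  intro i hi i' hi'
  have h3 := h2 i hi i' hi'
  have h4 : ‖v i - v i'‖ = ‖U (v i) - U (v i')‖ := by rw [← map_sub, U.norm_map]
  rw [h4, norm_sq_split, tl_sub]
  have e1 : ⌊U (v i) 0⌋ = c := (Finset.mem_filter.1 (hJ' hi)).2
  have e2 : ⌊U (v i') 0⌋ = c := (Finset.mem_filter.1 (hJ' hi')).2
  have h5 : |U (v i) 0 - U (v i') 0| < 1 := Int.abs_sub_lt_one_of_floor_eq_floor (e1.trans e2.symm)
  have h6 : (U (v i) - U (v i')) 0 = U (v i) 0 - U (v i') 0 := rfl
  rw [h6]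
  have h7 : (U (v i) 0 - U (v i') 0) ^ 2 ≤ 1 := by
    rw [← sq_abs]
    have := abs_nonneg (U (v i) 0 - U (v i') 0)
    nlinarith
  push_cast
  linarith

theorem tub_le_one {ι : Type} {d : ℕ} (A : ℝ) (v β : ι → Vec d) (i : ι) (p : ℝ × Vec d) : tub A v β i p ≤ 1 :=
  indicator_le_self' (fun _ _ => zero_le) _

/-- The dimension one. -/
theorem base {A L : ℝ} (hA : 0 < A) (hL : 0 ≤ L) (κ : ℕ) {q : ℝ} (hq : 2 < q) :
    ∃ C : ℝ, 0 < C ∧ ∀ (ι : Type) (J : Finset ι) (v β : ι → Vec 1), J.Nonempty →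
      Mult κ 1 J v → ∫⁻ t in Icc (-L) L, ∫⁻ x, (∑ i ∈ J, tub A v β i (t, x)) ^ q ≤
        ENNReal.ofReal (C * (J.card : ℝ) ^ (q - 1)) := by
  classical
  have hq0 : 0 < q := by linarith
  have hr : 1 < q - 1 := by linarith
  have hr0 : 0 < q - 1 := by linarith
  have hγ0 : 0 ≤ 1 / (q - 1) := by positivity
  have hγ1 : 1 / (q - 1) < 1 := by rw [div_lt_one hr0]; exact hr
  have hγ2 : 0 < 1 - 1 / (q - 1) := by linarith
  set E : ℝ := ((κ : ℝ) + 1) * 2 ^ (1 / (q - 1)) * (2 * (1 / (1 - 1 / (q - 1)) + 1)) with hE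
  have hE0 : 0 < E := by positivity
  refine ⟨2 * A * (4 * L + 8 * A) * E ^ (q - 1), by positivity, ?_⟩
  intro ι J v β hJ hM
  set u : ι → ℝ := fun i => v i 0 with hu
  set g : ι → ℝ := fun i => β i 0 with hg
  have hcount : ∀ c : ℤ, (J.filter (fun i => ⌊u i⌋ = c)).card ≤ κ := by
    intro c
    apply hM _ (Finset.filter_subset _ _)
    intro i hi i' hi'
    have e1 : ⌊v i 0⌋ = c := (Finset.mem_filter.1 hi).2
    have e2 : ⌊v i' 0⌋ = c := (Finset.mem_filter.1 hi').2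
    have h5 : |v i 0 - v i' 0| < 1 := Int.abs_sub_lt_one_of_floor_eq_floor (e1.trans e2.symm)
    have h6 : tl (v i - v i') = 0 := Subsingleton.elim _ _
    have h7 : (v i - v i') 0 = v i 0 - v i' 0 := rfl
    rw [norm_sq_split, h6, norm_zero, h7]
    have h8 : (v i 0 - v i' 0) ^ 2 ≤ 1 := by
      rw [← sq_abs]
      have := abs_nonneg (v i 0 - v i' 0)
      nlinarith
    push_cast
    linarith
  have hsum : ∀ c ∈ J, ∑ c' ∈ J, (1 + |u c - u c'|) ^ (-(1 / (q - 1))) ≤ E * (J.card : ℝ) ^ (1 - 1 / (q - 1)) := by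
    intro c _
    refine (sum_mult hγ0 hγ1 κ u J hJ hcount c).trans ?_
    apply mul_le_mul_of_nonneg_right _ (by positivity)
    rw [hE]
    gcongr
    linarith
  have hpl := planar_gen hA hL hr hE0 u g J hJ hsum
  have e1 : 1 + (q - 1) = q := by ring
  rw [e1] at hpl
  refine le_trans ?_ hpl
  refine lintegral_mono fun t => ?_
  have hmeas : Measurable (fun a : ℝ => (∑ i ∈ J, stq A u g i (t, a)) ^ q) := by
    refine (Finset.measurable_fun_sum _ fun i _ => ?_).pow_const q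
    exact (stq_meas A u g i).comp (measurable_const.prodMk measurable_id)
  calc ∫⁻ x, (∑ i ∈ J, tub A v β i (t, x)) ^ q
      ≤ ∫⁻ x : Vec 1, (∑ i ∈ J, stq A u g i (t, x 0)) ^ q := by
        refine lintegral_mono fun x => ENNReal.rpow_le_rpow (Finset.sum_le_sum fun i _ => ?_) hq0.le
        unfold tub stq
        by_cases hx : ‖x - (β i + t • v i)‖ ≤ A
        · have h0 := (abs_zero_le _).trans hx
          rw [indicator_of_mem (show (t, x 0) ∈ {p : ℝ × ℝ | |p.2 + p.1 * (-(u i)) - g i| ≤ A} from ?_)]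
          · exact indicator_le_self' (fun _ _ => zero_le) _
          · show |x 0 + t * (-(u i)) - g i| ≤ A
            have e0 : x 0 + t * (-(u i)) - g i = (x - (β i + t • v i)) 0 := by
              show x 0 + t * (-(v i 0)) - β i 0 = x 0 - (β i 0 + t * v i 0)
              ring
            rw [e0]
            exact h0
        · rw [indicator_of_notMem (show (t, x) ∉ {p : ℝ × Vec 1 | ‖p.2 - (β i + p.1 • v i)‖ ≤ A} from hx)]
          exact zero_le
    _ = ∫⁻ a : ℝ, ∫⁻ _y : Vec 0, (∑ i ∈ J, stq A u g i (t, a)) ^ q :=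
        lint_split (fun a _ => (∑ i ∈ J, stq A u g i (t, a)) ^ q) (hmeas.comp measurable_fst)
    _ = ∫⁻ a : ℝ, (∑ i ∈ J, stq A u g i (t, a)) ^ q := by
        refine lintegral_congr fun a => ?_
        rw [volume_euclideanSpace_eq_dirac, lintegral_const, Measure.dirac_apply_of_mem (mem_univ _), mul_one]

/-- The inductive step. -/
theorem step {K A L : ℝ} (hK : 0 ≤ K) (hA : 0 < A) (hL : 0 ≤ L) (κ : ℕ) (d : ℕ)
    (ih : ∀ q : ℝ, 1 + 1 / ((d : ℝ) + 1) < q → ∃ C : ℝ, 0 < C ∧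
      ∀ (ι : Type) (J : Finset ι) (v β : ι → Vec (d + 1)), J.Nonempty → Red K (d + 1) J v β →
      Mult κ (d + 1) J v → ∫⁻ t in Icc (-L) L, ∫⁻ x, (∑ i ∈ J, tub A v β i (t, x)) ^ q ≤
        ENNReal.ofReal (C * (J.card : ℝ) ^ (q - 1 / ((d : ℝ) + 1))))
    {q : ℝ} (hq : 1 + 1 / ((d : ℝ) + 2) < q) : ∃ C : ℝ, 0 < C ∧
      ∀ (ι : Type) (J : Finset ι) (v β : ι → Vec (d + 2)), J.Nonempty → Red K (d + 2) J v β →
      Mult κ (d + 2) J v → ∫⁻ t in Icc (-L) L, ∫⁻ x, (∑ i ∈ J, tub A v β i (t, x)) ^ q ≤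
        ENNReal.ofReal (C * (J.card : ℝ) ^ (q - 1 / ((d : ℝ) + 2))) := by
  classical
  have hA1 : 0 < A + K + L := by positivity
  have hd0 : (0 : ℝ) ≤ d := Nat.cast_nonneg d
  set b : ℝ := (d : ℝ) + 1 with hb
  have hb1 : 1 ≤ b := by linarith
  have hb0 : 0 < b := by linarith
  have hab : (1 : ℝ) + b = d + 2 := by rw [hb]; ring
  rw [← hab] at hq ⊢
  have hab0 : 0 < 1 + b := by linarith
  set e : ℝ := q - 1 - 1 / (1 + b) with he
  have he0 : 0 < e := by rw [he]; linarith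
  have hinv : 0 < 1 / (1 + b) := by positivity
  have hq1 : 1 ≤ q := by linarith
  have hq0 : 0 < q := by linarith
  set z : ℝ := min (1 / (1 + b) / 2) (e / 2) with hz
  have hz0 : 0 < z := lt_min (by positivity) (by positivity)
  have hza : z ≤ 1 / (1 + b) / 2 := min_le_left _ _
  have hzb : z ≤ e / 2 := min_le_right _ _
  have hbb : b / (1 + b) = 1 - 1 / (1 + b) := by field_simp; ring
  have hbb2 : 1 / (1 + b) ≤ b / (1 + b) := div_le_div_of_nonneg_right hb1 hab0.le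
  have hl : ∀ l, (l = b / (1 + b) + z ∨ l = b / (1 + b) + (-z)) → 0 < l ∧ l < 1 ∧ 1 < (q - 1) / (1 - l) ∧
      1 / b < (q - 1) / l := by
    intro l hl
    have h1 : b / (1 + b) - z ≤ l ∧ l ≤ b / (1 + b) + z := by
      rcases hl with rfl | rfl <;> constructor <;> linarith
    have h0 : 0 < l := by linarith
    have h2 : l < 1 := by linarith
    refine ⟨h0, h2, ?_, ?_⟩
    · rw [lt_div_iff₀ (by linarith)]
      linarith
    · rw [div_lt_div_iff₀ hb0 h0, one_mul]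
      have h3 : b / (1 + b) + z < (q - 1) * b := by
        have h4 : (q - 1) * b = b / (1 + b) + e * b := by rw [he]; ring
        rw [h4]
        have h5 : e * 1 ≤ e * b := mul_le_mul_of_nonneg_left hb1 he0.le
        linarith
      linarith
  -- the constants
  obtain ⟨-, -, hr1, hs1⟩ := hl (b / (1 + b) + z) (Or.inl rfl)
  obtain ⟨-, -, hr2, hs2⟩ := hl (b / (1 + b) + (-z)) (Or.inr rfl)
  obtain ⟨C1, hC1, hP1⟩ := planar hA1 hL hr1
  obtain ⟨C2, hC2, hP2⟩ := planar hA1 hL hr2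
  obtain ⟨C3, hC3, hI3⟩ := ih (1 + (q - 1) / (b / (1 + b) + z)) (by linarith)
  obtain ⟨C4, hC4, hI4⟩ := ih (1 + (q - 1) / (b / (1 + b) + (-z))) (by linarith)
  set V : ℝ := (volume (Metric.closedBall (0 : Vec (d + 1)) A)).toReal with hV
  have hV0 : 0 ≤ V := ENNReal.toReal_nonneg
  have hVt : volume (Metric.closedBall (0 : Vec (d + 1)) A) ≠ ∞ := measure_closedBall_lt_top.ne
  set Cm : ℝ := C1 + C2 + C3 + C4 + 2 * (A + K + L) + V with hCm
  have hCm0 : 0 < Cm := by positivity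
  have hρ1 : (2 : ℝ) ^ (-((1 / 1 + 1 / b) * z / q)) < 1 := by
    apply Real.rpow_lt_one_of_one_lt_of_neg (by norm_num)
    have : 0 < (1 / 1 + 1 / b) * z / q := by positivity
    linarith
  have hρ2 : 0 < 1 - (2 : ℝ) ^ (-((1 / 1 + 1 / b) * z / q)) := by linarith
  refine ⟨Cm ^ (2 : ℝ) * (2 ^ q * (4 / (1 - 2 ^ (-((1 / 1 + 1 / b) * z / q)))) ^ q), by positivity, ?_⟩
  intro ι J v β hJ hR hM
  obtain ⟨U, hU, hR'⟩ := hR
  set cl : ι → ℤ := fun i => ⌊U (v i) 0⌋ with hcl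
  set g : ℤ → ℝ := pick J cl (fun i => U (β i) 0) with hg
  set v' : ι → Vec (d + 1) := fun i => tl (U (v i)) with hv'
  set β' : ι → Vec (d + 1) := fun i => tl (U (β i)) with hβ'
  have hmulti := skew_multi (τ := volume.restrict (Icc (-L) L)) (μ := (volume : Measure ℝ))
    (ν := (volume : Measure (Vec (d + 1)))) (a := 1) (b := b) (q := q) (z := z) one_pos hb0 hq1 hz0
    (by linarith) (by linarith) (by linarith)
    (fun l hl' => by
      have := (hl l hl').2.2.2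
      linarith)
    (ENNReal.ofReal Cm) J cl (stp (A + K + L) g) (tub A v' β')
    (stp_meas (A + K + L) g) (tub_meas A v' β')
    (fun m t => by
      rw [stp_int]
      apply ENNReal.ofReal_le_ofReal
      rw [hCm]
      linarith)
    (fun i t => by
      rw [tub_int, ← ENNReal.ofReal_toReal hVt]
      apply ENNReal.ofReal_le_ofReal
      rw [hCm]
      linarith)
    (fun l hl' S hS => by
      have e1 : 1 + (q - 1) / (1 - l) - 1 / 1 = (q - 1) / (1 - l) := by ring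
      rw [e1, ← ENNReal.ofReal_mul hCm0.le]
      have hS0 : (0 : ℝ) < S.card := by exact_mod_cast hS.card_pos
      rcases hl' with rfl | rfl
      · refine (hP1 g S hS).trans (ENNReal.ofReal_le_ofReal ?_)
        apply mul_le_mul_of_nonneg_right _ (by positivity)
        rw [hCm]; linarith
      · refine (hP2 g S hS).trans (ENNReal.ofReal_le_ofReal ?_)
        apply mul_le_mul_of_nonneg_right _ (by positivity)
        rw [hCm]; linarith)
    (fun l hl' m hm => by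
      rw [← ENNReal.ofReal_mul hCm0.le]
      have hS0 : (0 : ℝ) < (J.filter (fun i => cl i = m)).card := by exact_mod_cast hm.card_pos
      rcases hl' with rfl | rfl
      · refine (hI3 ι _ v' β' hm (hR' m) (hM.class_tl U m)).trans (ENNReal.ofReal_le_ofReal ?_)
        apply mul_le_mul_of_nonneg_right _ (by positivity)
        rw [hCm]; linarith
      · refine (hI4 ι _ v' β' hm (hR' m) (hM.class_tl U m)).trans (ENNReal.ofReal_le_ofReal ?_)
        apply mul_le_mul_of_nonneg_right _ (by positivity)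
        rw [hCm]; linarith)
    hJ
  have hpt : ∀ t ∈ Icc (-L) L, ∫⁻ x, (∑ i ∈ J, tub A v β i (t, x)) ^ q ≤
      ∫⁻ a : ℝ, ∫⁻ y, (∑ i ∈ J, stp (A + K + L) g (cl i) (t, a) * tub A v' β' i (t, y)) ^ q := by
    intro t ht
    have ht' : |t| ≤ L := abs_le.2 ht
    have hmeas : Measurable (fun p : ℝ × Vec (d + 1) =>
        (∑ i ∈ J, stp (A + K + L) g (cl i) (t, p.1) * tub A v' β' i (t, p.2)) ^ q) := by
      refine (Finset.measurable_fun_sum _ fun i _ => ?_).pow_const q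
      exact ((stp_meas _ g (cl i)).comp (measurable_const.prodMk measurable_fst)).mul
        ((tub_meas A v' β' i).comp (measurable_const.prodMk measurable_snd))
    rw [← lint_rot_split U (fun a y => (∑ i ∈ J, stp (A + K + L) g (cl i) (t, a) * tub A v' β' i (t, y)) ^ q) hmeas]
    refine lintegral_mono fun x => ENNReal.rpow_le_rpow ?_ hq0.le
    exact Finset.sum_le_sum fun i hi => tub_le U hU hi ht' x
  refine (setLIntegral_mono' measurableSet_Icc hpt).trans (hmulti.trans (le_of_eq ?_))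
  rw [ENNReal.ofReal_rpow_of_pos hCm0, ← ENNReal.ofReal_mul (by positivity)]
  congr 1
  ring

/-- **The estimate for reducible families at scale one.** -/
theorem red_main {K A L : ℝ} (hK : 0 ≤ K) (hA : 0 < A) (hL : 0 ≤ L) (κ : ℕ) (d : ℕ) :
    ∀ q : ℝ, 1 + 1 / ((d : ℝ) + 1) < q → ∃ C : ℝ, 0 < C ∧
      ∀ (ι : Type) (J : Finset ι) (v β : ι → Vec (d + 1)), J.Nonempty → Red K (d + 1) J v β →
      Mult κ (d + 1) J v → ∫⁻ t in Icc (-L) L, ∫⁻ x, (∑ i ∈ J, tub A v β i (t, x)) ^ q ≤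
        ENNReal.ofReal (C * (J.card : ℝ) ^ (q - 1 / ((d : ℝ) + 1))) := by
  induction d with
  | zero =>
    intro q hq
    obtain ⟨C, hC, h⟩ := base hA hL κ (q := q) (by norm_num at hq; exact hq)
    refine ⟨C, hC, ?_⟩
    intro ι J v β hJ _ hM
    have e : q - 1 / (((0 : ℕ) : ℝ) + 1) = q - 1 := by norm_num
    rw [e]
    exact h ι J v β hJ hM
  | succ d ih =>
    intro q hq
    have e : (((d + 1 : ℕ) : ℝ) + 1) = (d : ℝ) + 2 := by push_cast; ring
    rw [e] at hq ⊢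
    exact step hK hA hL κ d ih hq

end Pool.Agent.R134.Kak
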