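import Pool.Agent.R134.Kak.Boxes

set_option autoImplicit false

/-! Comparison with the centred family, for large exponents. -/

open MeasureTheory Set Filter Topology ENNReal NNReal Metric

namespace Pool.Agent.R134.Kak

open Pool.Agent.H810R3.Tub (Space box nor Fb Fb_measurable wv wv_pos ball_sub_box Fb_le enorm_sum_box finrank_space)

/-- Comparison of the norms, for all exponents `p ≥ q`. -/
theorem compare_large (d : ℕ) {ι : Type} [Fintype ι] [Nonempty ι] {N q Q D : ℝ} (hN : 1 ≤ N)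
    (hq1 : 1 < q) (hD1 : 1 ≤ D) (ω : ι → Vec d) (f : ι → Fin d → Space d)
    (hf : ∀ i, Orthonormal ℝ (Fin.cons (nor (ω i)) (f i) : Fin (d + 1) → Space d)) (a : ι → Space d)
    (hQi : ∫⁻ y, Fb N ω f a y ^ q ≤ ENNReal.ofReal Q)
    (hA2 : Q ≤ D ^ q * ((Fintype.card ι : ℝ) ^ q * ((N / 2) ^ (d + 1) * wv d)))
    (p : ℝ≥0∞) (hp : ENNReal.ofReal q ≤ p) :
    eLpNorm (fun y : Space d => ∑ i, (box N (nor (ω i)) (f i) (a i)).indicator (fun _ => (1 : ℝ)) y) p volume
      ≤ ENNReal.ofReal D *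
        eLpNorm (fun y : Space d => ∑ i,
          (box N (nor (ω i)) (f i) 0).indicator (fun _ => (1 : ℝ)) y) p volume := by
  have hd0 : (0 : ℝ) ≤ d := Nat.cast_nonneg d
  have hN0 : 0 < N := by linarith
  have hq0 : 0 < q := by linarith
  have hD0 : 0 < D := by linarith
  set w : ℝ := wv d with hw
  have hw0 : 0 < w := wv_pos d
  have hwe : volume (ball (0 : Space d) 1) = ENNReal.ofReal w := by
    rw [hw, wv, ENNReal.ofReal_toReal measure_ball_lt_top.ne]
  set c : ℝ := (Fintype.card ι : ℝ) with hc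
  have hc0 : 0 < c := by
    have h1 : (0 : ℝ) < (Fintype.card ι : ℝ) := by
      have := Fintype.card_pos (α := ι)
      exact_mod_cast this
    exact h1
  have hbv : volume (ball (0 : Space d) (N / 2)) = ENNReal.ofReal ((N / 2) ^ (d + 1) * w) := by
    rw [Measure.addHaar_ball_of_pos _ _ (by positivity), finrank_space, hwe,
      ← ENNReal.ofReal_mul (by positivity)]
  have hball : ∀ y ∈ ball (0 : Space d) (N / 2), Fb N ω f (fun _ => (0 : Space d)) y = ENNReal.ofReal c := by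
    intro y hy
    unfold Fb
    rw [Finset.sum_congr rfl (fun i _ => indicator_of_mem (ball_sub_box hN (hf i) hy) _)]
    simp [hc]
  have hFc : ∀ y, Fb N ω f a y ≤ ENNReal.ofReal c := by
    intro y
    refine (Fb_le N ω f a y).trans (le_of_eq ?_)
    rw [hc, ENNReal.ofReal_natCast]
  have hD1e : (1 : ℝ≥0∞) ≤ ENNReal.ofReal D := by
    rw [← ENNReal.ofReal_one]
    exact ENNReal.ofReal_le_ofReal hD1
  rcases eq_or_ne p ∞ with hpt | hpt
  · -- the case of the supremum norm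
    rw [hpt, eLpNorm_exponent_top, eLpNorm_exponent_top]
    have h1 : eLpNormEssSup (fun y : Space d => ∑ i, (box N (nor (ω i)) (f i)
        (a i)).indicator (fun _ => (1 : ℝ)) y) volume ≤ ENNReal.ofReal c := by
      unfold eLpNormEssSup
      refine essSup_le_of_ae_le _ (Filter.Eventually.of_forall fun y => ?_)
      show ‖∑ i, (box N (nor (ω i)) (f i) (a i)).indicator (fun _ => (1 : ℝ)) y‖ₑ ≤ ENNReal.ofReal c
      rw [enorm_sum_box]
      exact hFc y
    have h2 : ENNReal.ofReal c ≤ eLpNormEssSup (fun y : Space d => ∑ i,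
        (box N (nor (ω i)) (f i) 0).indicator (fun _ => (1 : ℝ)) y) volume := by
      have h3 := ae_le_eLpNormEssSup (f := fun y : Space d => ∑ i,
        (box N (nor (ω i)) (f i) 0).indicator (fun _ => (1 : ℝ)) y) (μ := volume)
      have h4 : volume (ball (0 : Space d) (N / 2)) ≠ 0 := (measure_ball_pos _ _ (by positivity)).ne'
      obtain ⟨y, hy1, hy2⟩ : ∃ y ∈ ball (0 : Space d) (N / 2), ‖∑ i,
          (box N (nor (ω i)) (f i) 0).indicator (fun _ => (1 : ℝ)) y‖ₑ ≤ eLpNormEssSup (fun y : Space d => ∑ i,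
          (box N (nor (ω i)) (f i) 0).indicator (fun _ => (1 : ℝ)) y) volume := by
        by_contra hcon
        push Not at hcon
        apply h4
        refine measure_mono_null ?_ (ae_iff.1 h3)
        intro y hy
        exact not_le.2 (hcon y hy)
      have h5 := enorm_sum_box N ω f (fun _ => (0 : Space d)) y
      rw [h5, hball y hy1] at hy2
      exact hy2
    calc _ ≤ 1 * ENNReal.ofReal c := by rw [one_mul]; exact h1
      _ ≤ _ := mul_le_mul' hD1e h2
  · -- finite exponents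
    have hp0 : p ≠ 0 := by
      intro h
      rw [h, nonpos_iff_eq_zero, ENNReal.ofReal_eq_zero] at hp
      linarith
    set r : ℝ := p.toReal with hr
    have hrq : q ≤ r := by
      have h1 : (ENNReal.ofReal q).toReal ≤ p.toReal := ENNReal.toReal_mono hpt hp
      rwa [ENNReal.toReal_ofReal hq0.le] at h1
    have hr0 : 0 < r := by linarith
    rw [eLpNorm_eq_lintegral_rpow_enorm_toReal hp0 hpt, eLpNorm_eq_lintegral_rpow_enorm_toReal hp0 hpt, ← hr]
    have e1 : ∫⁻ y : Space d, ‖∑ i, (box N (nor (ω i)) (f i) (a i)).indicator (fun _ => (1 : ℝ)) y‖ₑ ^ r =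
        ∫⁻ y, Fb N ω f a y ^ r := by
      refine lintegral_congr fun y => ?_
      rw [enorm_sum_box]
    have e2 : ∫⁻ y : Space d, ‖∑ i, (box N (nor (ω i)) (f i) 0).indicator (fun _ => (1 : ℝ)) y‖ₑ ^ r =
        ∫⁻ y, Fb N ω f (fun _ => 0) y ^ r := by
      refine lintegral_congr fun y => ?_
      rw [← enorm_sum_box]
    rw [e1, e2]
    have key : ∫⁻ y, Fb N ω f a y ^ r ≤ ENNReal.ofReal (D ^ r) * ∫⁻ y, Fb N ω f (fun _ => 0) y ^ r := by
      have h1 : ∫⁻ y, Fb N ω f a y ^ r ≤ ENNReal.ofReal (c ^ (r - q) * Q) := by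
        calc ∫⁻ y, Fb N ω f a y ^ r ≤ ∫⁻ y, ENNReal.ofReal (c ^ (r - q)) * Fb N ω f a y ^ q := by
              refine lintegral_mono fun y => ?_
              simp only
              have e3 : Fb N ω f a y ^ r = Fb N ω f a y ^ (r - q) * Fb N ω f a y ^ q := by
                rw [← ENNReal.rpow_add_of_nonneg _ _ (by linarith) hq0.le, sub_add_cancel]
              rw [e3, ← ENNReal.ofReal_rpow_of_pos hc0]
              exact mul_le_mul' (ENNReal.rpow_le_rpow (hFc y) (by linarith)) le_rfl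
          _ = ENNReal.ofReal (c ^ (r - q)) * ∫⁻ y, Fb N ω f a y ^ q :=
              lintegral_const_mul' _ _ ENNReal.ofReal_ne_top
          _ ≤ ENNReal.ofReal (c ^ (r - q)) * ENNReal.ofReal Q := mul_le_mul' le_rfl hQi
          _ = _ := (ENNReal.ofReal_mul (by positivity)).symm
      have h2 : ENNReal.ofReal (c ^ r * ((N / 2) ^ (d + 1) * w)) ≤ ∫⁻ y, Fb N ω f (fun _ => 0) y ^ r := by
        calc ENNReal.ofReal (c ^ r * ((N / 2) ^ (d + 1) * w))
            = ENNReal.ofReal (c ^ r) * volume (ball (0 : Space d) (N / 2)) := by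
              rw [hbv, ENNReal.ofReal_mul (by positivity)]
          _ = ∫⁻ _ in ball (0 : Space d) (N / 2), ENNReal.ofReal (c ^ r) := by
              rw [setLIntegral_const]
          _ = ∫⁻ y in ball (0 : Space d) (N / 2), Fb N ω f (fun _ => 0) y ^ r := by
              refine setLIntegral_congr_fun measurableSet_ball fun y hy => ?_
              rw [hball y hy, ENNReal.ofReal_rpow_of_pos hc0]
          _ ≤ _ := setLIntegral_le_lintegral _ _
      have h3 : c ^ (r - q) * Q ≤ D ^ r * (c ^ r * ((N / 2) ^ (d + 1) * w)) := by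
        have h4 : D ^ q ≤ D ^ r := Real.rpow_le_rpow_of_exponent_le hD1 hrq
        have h5 : c ^ (r - q) * c ^ q = c ^ r := by
          rw [← Real.rpow_add hc0, sub_add_cancel]
        calc c ^ (r - q) * Q ≤ c ^ (r - q) * (D ^ q * (c ^ q * ((N / 2) ^ (d + 1) * w))) :=
              mul_le_mul_of_nonneg_left hA2 (by positivity)
          _ = D ^ q * ((c ^ (r - q) * c ^ q) * ((N / 2) ^ (d + 1) * w)) := by ring
          _ = D ^ q * (c ^ r * ((N / 2) ^ (d + 1) * w)) := by rw [h5]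
          _ ≤ _ := mul_le_mul_of_nonneg_right h4 (by positivity)
      calc ∫⁻ y, Fb N ω f a y ^ r ≤ ENNReal.ofReal (c ^ (r - q) * Q) := h1
        _ ≤ ENNReal.ofReal (D ^ r * (c ^ r * ((N / 2) ^ (d + 1) * w))) := ENNReal.ofReal_le_ofReal h3
        _ = ENNReal.ofReal (D ^ r) * ENNReal.ofReal (c ^ r * ((N / 2) ^ (d + 1) * w)) :=
            ENNReal.ofReal_mul (by positivity)
        _ ≤ _ := mul_le_mul' le_rfl h2
    calc (∫⁻ y, Fb N ω f a y ^ r) ^ (1 / r)
        ≤ (ENNReal.ofReal (D ^ r) * ∫⁻ y, Fb N ω f (fun _ => 0) y ^ r) ^ (1 / r) :=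
          ENNReal.rpow_le_rpow key (by positivity)
      _ = ENNReal.ofReal D * (∫⁻ y, Fb N ω f (fun _ => 0) y ^ r) ^ (1 / r) := by
          rw [ENNReal.mul_rpow_of_nonneg _ _ (by positivity), ENNReal.ofReal_rpow_of_pos (by positivity),
            ← Real.rpow_mul hD0.le, mul_one_div_cancel hr0.ne', Real.rpow_one]

/-- The arithmetic of the large exponents. -/
theorem arith_large {d : ℕ} (hd0 : (0 : ℝ) < d) {E q N c κ w D : ℝ} (hE : 0 < E)
    (hN : 1 ≤ N) (hκ : 0 < κ) (hc : κ * N ^ d ≤ c) (hw : 0 < w)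
    (hD : E * κ ^ (-(1 / (d : ℝ))) * 2 ^ (d + 1) / w ≤ D ^ q) :
    E * N ^ (d + 2) * c ^ (q - 1 / d) ≤ D ^ q * (c ^ q * ((N / 2) ^ (d + 1) * w)) := by
  have hN0 : 0 < N := by linarith
  have hκN : 0 < κ * N ^ d := by positivity
  have hc0 : 0 < c := lt_of_lt_of_le hκN hc
  have h1 : (κ * N ^ d) ^ (1 / (d : ℝ)) ≤ c ^ (1 / (d : ℝ)) :=
    Real.rpow_le_rpow hκN.le hc (by positivity)
  have h2 : (κ * N ^ d) ^ (1 / (d : ℝ)) = κ ^ (1 / (d : ℝ)) * N := by
    rw [Real.mul_rpow hκ.le (by positivity), ← Real.rpow_natCast N d, ← Real.rpow_mul hN0.le,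
      mul_one_div_cancel hd0.ne', Real.rpow_one]
  rw [h2] at h1
  have h3 : c ^ (q - 1 / (d : ℝ)) * c ^ (1 / (d : ℝ)) = c ^ q := by
    rw [← Real.rpow_add hc0, sub_add_cancel]
  have h4 : κ ^ (-(1 / (d : ℝ))) * κ ^ (1 / (d : ℝ)) = 1 := by
    rw [← Real.rpow_add hκ, neg_add_cancel, Real.rpow_zero]
  have hk0 : 0 < κ ^ (1 / (d : ℝ)) := Real.rpow_pos_of_pos hκ _
  have hcq : 0 < c ^ (q - 1 / (d : ℝ)) := Real.rpow_pos_of_pos hc0 _
  have hD0 : 0 ≤ D ^ q := le_trans (by positivity) hD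
  have hN2 : N ^ (d + 2) = N * N ^ (d + 1) := by ring
  calc E * N ^ (d + 2) * c ^ (q - 1 / (d : ℝ))
      = (E * (κ ^ (-(1 / (d : ℝ))) * κ ^ (1 / (d : ℝ)))) * N ^ (d + 2) * c ^ (q - 1 / (d : ℝ)) := by
        rw [h4, mul_one]
    _ = (E * κ ^ (-(1 / (d : ℝ))) * 2 ^ (d + 1) / w) *
          ((c ^ (q - 1 / (d : ℝ)) * (κ ^ (1 / (d : ℝ)) * N)) * ((N / 2) ^ (d + 1) * w)) := by
        rw [div_pow, hN2]
        field_simp
    _ ≤ D ^ q * ((c ^ (q - 1 / (d : ℝ)) * c ^ (1 / (d : ℝ))) * ((N / 2) ^ (d + 1) * w)) := by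
        apply mul_le_mul hD _ (by positivity) hD0
        exact mul_le_mul_of_nonneg_right (mul_le_mul_of_nonneg_left h1 hcq.le) (by positivity)
    _ = _ := by rw [h3]

end Pool.Agent.R134.Kak
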