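import Pool.Agent.R134.Kak.Skew

set_option autoImplicit false

/-! The skew product principle: summation over the scales. -/

open MeasureTheory Set ENNReal NNReal

namespace Pool.Agent.R134.Kak

/-- Two sided geometric sums. -/
theorem sum_min_le {u ρ : ℝ} (hu : 0 < u) (hρ0 : 0 < ρ) (hρ1 : ρ < 1) (K : ℕ) :
    ∑ k ∈ Finset.range K, min (u * ρ ^ k) (1 / (u * ρ ^ k)) ≤ 4 / (1 - ρ) := by
  have h1 : 0 < 1 - ρ := by linarith
  set f : ℕ → ℝ := fun k => u * ρ ^ k / (1 + u * ρ ^ k) with hf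
  have hz : ∀ k, 0 < u * ρ ^ k := fun k => by positivity
  have key : ∀ k, min (u * ρ ^ k) (1 / (u * ρ ^ k)) ≤ 4 / (1 - ρ) * (f k - f (k + 1)) := by
    intro k
    set z : ℝ := u * ρ ^ k with hzd
    have hz0 : 0 < z := hz k
    have e1 : f (k + 1) = ρ * z / (1 + ρ * z) := by
      show u * ρ ^ (k + 1) / (1 + u * ρ ^ (k + 1)) = _
      have : u * ρ ^ (k + 1) = ρ * z := by rw [hzd, pow_succ]; ring
      rw [this]
    have e2 : f k = z / (1 + z) := rfl
    rw [e1, e2]
    have hρz : 0 < 1 + ρ * z := by positivity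
    have e3 : z / (1 + z) - ρ * z / (1 + ρ * z) = z * (1 - ρ) / ((1 + z) * (1 + ρ * z)) := by
      field_simp
      ring
    rw [e3]
    have e4 : 4 / (1 - ρ) * (z * (1 - ρ) / ((1 + z) * (1 + ρ * z))) = 4 * z / ((1 + z) * (1 + ρ * z)) := by
      field_simp
    rw [e4, le_div_iff₀ (by positivity)]
    have h5 : (1 + z) * (1 + ρ * z) ≤ (1 + z) ^ 2 := by
      rw [sq]
      apply mul_le_mul_of_nonneg_left _ (by positivity)
      nlinarith
    rcases le_total z 1 with h | h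
    · calc min z (1 / z) * ((1 + z) * (1 + ρ * z)) ≤ z * (1 + z) ^ 2 :=
            mul_le_mul (min_le_left _ _) h5 (by positivity) hz0.le
        _ ≤ 4 * z := by nlinarith [mul_nonneg hz0.le (sub_nonneg.2 h), mul_nonneg (mul_nonneg hz0.le hz0.le) (sub_nonneg.2 h)]
    · calc min z (1 / z) * ((1 + z) * (1 + ρ * z)) ≤ 1 / z * (1 + z) ^ 2 :=
            mul_le_mul (min_le_right _ _) h5 (by positivity) (by positivity)
        _ ≤ 4 * z := by
            rw [div_mul_eq_mul_div, one_mul, div_le_iff₀ hz0]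
            nlinarith
  calc ∑ k ∈ Finset.range K, min (u * ρ ^ k) (1 / (u * ρ ^ k))
      ≤ ∑ k ∈ Finset.range K, 4 / (1 - ρ) * (f k - f (k + 1)) := Finset.sum_le_sum fun k _ => key k
    _ = 4 / (1 - ρ) * (f 0 - f K) := by rw [← Finset.mul_sum, Finset.sum_range_sub']
    _ ≤ 4 / (1 - ρ) * 1 := by
        apply mul_le_mul_of_nonneg_left _ (by positivity)
        have h2 : 0 ≤ f K := div_nonneg (hz K).le (by have := hz K; linarith)
        have h3 : f 0 ≤ 1 := by
          show u * ρ ^ 0 / (1 + u * ρ ^ 0) ≤ 1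
          rw [div_le_one (by have := hz 0; linarith)]
          linarith [hz 0]
        linarith
    _ = _ := mul_one _

theorem alg (C₀ : ℝ≥0∞) {K n e1 e2 l : ℝ} (hK : 0 < K) (hn : 0 < n) (h0 : 0 < l) (h1 : l < 1) :
    (C₀ * ENNReal.ofReal K * (C₀ * ENNReal.ofReal (n ^ e1))) ^ (1 - l) *
      (ENNReal.ofReal n * (C₀ * (C₀ * ENNReal.ofReal (K ^ e2)))) ^ l =
      C₀ ^ (2 : ℝ) * ENNReal.ofReal (K ^ (1 - l + e2 * l) * n ^ (e1 * (1 - l) + l)) := by
  have h1' : 0 < 1 - l := by linarith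
  have e1' : C₀ * ENNReal.ofReal K * (C₀ * ENNReal.ofReal (n ^ e1)) =
      (C₀ ^ (2 : ℝ)) * ENNReal.ofReal (K * n ^ e1) := by
    rw [ENNReal.ofReal_mul hK.le, ENNReal.rpow_two]
    ring
  have e2' : ENNReal.ofReal n * (C₀ * (C₀ * ENNReal.ofReal (K ^ e2))) =
      (C₀ ^ (2 : ℝ)) * ENNReal.ofReal (n * K ^ e2) := by
    rw [ENNReal.ofReal_mul hn.le, ENNReal.rpow_two]
    ring
  rw [e1', e2', ENNReal.mul_rpow_of_nonneg _ _ h1'.le, ENNReal.mul_rpow_of_nonneg _ _ h0.le,
    ENNReal.ofReal_rpow_of_pos (by positivity), ENNReal.ofReal_rpow_of_pos (by positivity)]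
  have e3 : (C₀ ^ (2 : ℝ)) ^ (1 - l) * (C₀ ^ (2 : ℝ)) ^ l = C₀ ^ (2 : ℝ) := by
    rw [← ENNReal.rpow_add_of_nonneg _ _ h1'.le h0.le]
    simp
  have e4 : (K * n ^ e1) ^ (1 - l) * (n * K ^ e2) ^ l = K ^ (1 - l + e2 * l) * n ^ (e1 * (1 - l) + l) := by
    rw [Real.mul_rpow hK.le (by positivity), Real.mul_rpow hn.le (by positivity), ← Real.rpow_mul hn.le,
      ← Real.rpow_mul hK.le, Real.rpow_add hK, Real.rpow_add hn]
    ring
  rw [← e4, ENNReal.ofReal_mul (by positivity), ← e3]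
  rw [e3]
  calc (C₀ ^ (2 : ℝ)) ^ (1 - l) * ENNReal.ofReal ((K * n ^ e1) ^ (1 - l)) *
        ((C₀ ^ (2 : ℝ)) ^ l * ENNReal.ofReal ((n * K ^ e2) ^ l))
      = ((C₀ ^ (2 : ℝ)) ^ (1 - l) * (C₀ ^ (2 : ℝ)) ^ l) * (ENNReal.ofReal ((K * n ^ e1) ^ (1 - l)) *
        ENNReal.ofReal ((n * K ^ e2) ^ l)) := by ring
    _ = _ := by rw [e3]

/-- The real number inequality at one scale. -/
theorem real_scale {a b q z N m n l : ℝ} (ha : 0 < a) (hb : 0 < b) (hl : l = b / (a + b) + z)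
    (hl0 : 0 ≤ l) (he : 0 ≤ q - (1 - l) / a) (hm : 1 ≤ m) (hn : 0 < n) (hN : n * m ≤ N) :
    (2 * m) ^ (q - l / b) * n ^ (q - (1 - l) / a) ≤
      2 ^ q * N ^ (q - 1 / (a + b)) * (N ^ (1 / a) * m ^ (-(1 / a + 1 / b))) ^ z := by
  have hm0 : 0 < m := by linarith
  have hN0 : 0 < N := lt_of_lt_of_le (by positivity) hN
  have h1 : n ≤ N / m := by rwa [le_div_iff₀ hm0]
  have hab : 0 < a + b := by linarith
  calc (2 * m) ^ (q - l / b) * n ^ (q - (1 - l) / a)
      ≤ (2 ^ q * m ^ (q - l / b)) * (N / m) ^ (q - (1 - l) / a) := by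
        apply mul_le_mul _ (Real.rpow_le_rpow hn.le h1 he) (by positivity) (by positivity)
        rw [Real.mul_rpow (by norm_num) hm0.le]
        apply mul_le_mul_of_nonneg_right _ (by positivity)
        apply Real.rpow_le_rpow_of_exponent_le (by norm_num)
        have : 0 ≤ l / b := by positivity
        linarith
    _ = 2 ^ q * N ^ (q - 1 / (a + b)) * (N ^ (1 / a) * m ^ (-(1 / a + 1 / b))) ^ z := by
        rw [Real.div_rpow hN0.le hm0.le, Real.mul_rpow (by positivity) (by positivity), ← Real.rpow_mul hN0.le,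
          ← Real.rpow_mul hm0.le]
        have e1 : q - (1 - l) / a = (q - 1 / (a + b)) + 1 / a * z := by
          rw [hl]; field_simp; ring
        have e2 : m ^ (q - l / b) = m ^ (q - (1 - l) / a) * m ^ (-(1 / a + 1 / b) * z) := by
          rw [← Real.rpow_add hm0]
          congr 1
          rw [hl]; field_simp; ring
        rw [e2]
        have e3 : N ^ (q - (1 - l) / a) = N ^ (q - 1 / (a + b)) * N ^ (1 / a * z) := by
          rw [← Real.rpow_add hN0, e1]
        rw [e3]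
        have hmp : m ^ (q - (1 - l) / a) ≠ 0 := (Real.rpow_pos_of_pos hm0 _).ne'
        field_simp

section

variable {T X Y M ι : Type*} [MeasurableSpace T] [MeasurableSpace X] [MeasurableSpace Y] [DecidableEq M]
  {τ : Measure T} {μ : Measure X} {ν : Measure Y} [SFinite μ] [SFinite ν]

omit [DecidableEq M] in
theorem triple {g : T × (X × Y) → ℝ≥0∞} (hg : Measurable g) :
    ∫⁻ p, g p ∂(τ.prod (μ.prod ν)) = ∫⁻ t, ∫⁻ x, ∫⁻ y, g (t, (x, y)) ∂ν ∂μ ∂τ := by
  rw [lintegral_prod _ hg.aemeasurable]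
  refine lintegral_congr fun t => ?_
  have hgt : Measurable (fun z : X × Y => g (t, z)) := hg.comp (measurable_const.prodMk measurable_id)
  rw [lintegral_prod _ hgt.aemeasurable]

/-- **The skew product principle.** -/
theorem skew_multi {a b q z : ℝ} (ha : 0 < a) (hb : 0 < b) (hq : 1 ≤ q) (hz : 0 < z)
    (hz1 : z < a / (a + b)) (hz2 : z < b / (a + b)) (hz3 : z ≤ a * (q - 1 / (a + b)))
    (he2 : ∀ l, (l = b / (a + b) + z ∨ l = b / (a + b) + (-z)) → 0 ≤ 1 + (q - 1) / l - 1 / b)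
    (C₀ : ℝ≥0∞) (J : Finset ι) (c : ι → M) (w : M → T × X → ℝ≥0∞) (g : ι → T × Y → ℝ≥0∞)
    (hwm : ∀ m, Measurable (w m)) (hgm : ∀ i, Measurable (g i))
    (hw1 : ∀ m t, ∫⁻ x, w m (t, x) ∂μ ≤ C₀) (hg1 : ∀ i t, ∫⁻ y, g i (t, y) ∂ν ≤ C₀)
    (hW : ∀ l, (l = b / (a + b) + z ∨ l = b / (a + b) + (-z)) → ∀ A : Finset M, A.Nonempty →
      ∫⁻ t, ∫⁻ x, (∑ m ∈ A, w m (t, x)) ^ (1 + (q - 1) / (1 - l)) ∂μ ∂τ ≤
        C₀ * ENNReal.ofReal ((A.card : ℝ) ^ (1 + (q - 1) / (1 - l) - 1 / a)))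
    (hF : ∀ l, (l = b / (a + b) + z ∨ l = b / (a + b) + (-z)) → ∀ m, (J.filter (fun i => c i = m)).Nonempty →
      ∫⁻ t, ∫⁻ y, (∑ i ∈ J.filter (fun i => c i = m), g i (t, y)) ^ (1 + (q - 1) / l) ∂ν ∂τ ≤
        C₀ * ENNReal.ofReal (((J.filter (fun i => c i = m)).card : ℝ) ^ (1 + (q - 1) / l - 1 / b)))
    (hJ : J.Nonempty) :
    ∫⁻ t, ∫⁻ x, ∫⁻ y, (∑ i ∈ J, w (c i) (t, x) * g i (t, y)) ^ q ∂ν ∂μ ∂τ ≤
      C₀ ^ (2 : ℝ) * ENNReal.ofReal (2 ^ q * (4 / (1 - 2 ^ (-((1 / a + 1 / b) * z / q)))) ^ q *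
        (J.card : ℝ) ^ (q - 1 / (a + b))) := by
  classical
  have hab : 0 < a + b := by linarith
  have hq0 : 0 < q := by linarith
  have hab1 : a / (a + b) + b / (a + b) = 1 := by field_simp
  set N : ℝ := (J.card : ℝ) with hN
  have hN1 : 1 ≤ N := by
    rw [hN]
    exact_mod_cast hJ.card_pos
  have hN0 : 0 < N := by linarith
  set Nm : M → ℕ := fun m => (J.filter (fun i => c i = m)).card with hNm
  set f : M → T × Y → ℝ≥0∞ := fun m p => ∑ i ∈ J.filter (fun i => c i = m), g i p with hf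
  have hfm : ∀ m, Measurable (f m) := fun m => Finset.measurable_fun_sum _ fun i _ => hgm i
  set A : ℕ → Finset M := fun k => (J.image c).filter (fun m => Nat.log 2 (Nm m) = k) with hA
  set K : ℕ := Nat.log 2 J.card + 1 with hK
  set G : ℕ → T × (X × Y) → ℝ≥0∞ := fun k p => ∑ m ∈ A k, w m (p.1, p.2.1) * f m (p.1, p.2.2) with hG
  have htx : Measurable (fun p : T × (X × Y) => (p.1, p.2.1)) :=
    measurable_fst.prodMk (measurable_fst.comp measurable_snd)
  have hty : Measurable (fun p : T × (X × Y) => (p.1, p.2.2)) :=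
    measurable_fst.prodMk (measurable_snd.comp measurable_snd)
  have hGm : ∀ k, Measurable (G k) := fun k =>
    Finset.measurable_fun_sum _ fun m _ => ((hwm m).comp htx).mul ((hfm m).comp hty)
  -- decomposition
  have hNmle : ∀ m, Nm m ≤ J.card := fun m => Finset.card_filter_le _ _
  have hdec : ∀ p : T × (X × Y), ∑ i ∈ J, w (c i) (p.1, p.2.1) * g i (p.1, p.2.2) = ∑ k ∈ Finset.range K, G k p := by
    intro p
    have e1 : ∑ k ∈ Finset.range K, G k p = ∑ m ∈ J.image c, w m (p.1, p.2.1) * f m (p.1, p.2.2) := by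
      show ∑ k ∈ Finset.range K, ∑ m ∈ (J.image c).filter (fun m => Nat.log 2 (Nm m) = k),
        w m (p.1, p.2.1) * f m (p.1, p.2.2) = _
      apply Finset.sum_fiberwise_of_maps_to
      intro m _
      rw [Finset.mem_range, hK, Nat.lt_succ_iff]
      exact Nat.log_mono_right (hNmle m)
    rw [e1]
    rw [← Finset.sum_fiberwise_of_maps_to (g := c) (t := J.image c) (fun i hi => Finset.mem_image_of_mem c hi)]
    refine Finset.sum_congr rfl fun m _ => ?_
    show _ = w m (p.1, p.2.1) * ∑ i ∈ J.filter (fun i => c i = m), g i (p.1, p.2.2)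
    rw [Finset.mul_sum]
    refine Finset.sum_congr rfl fun i hi => ?_
    rw [(Finset.mem_filter.1 hi).2]
  -- sizes
  have hsize : ∀ k m, m ∈ A k → 2 ^ k ≤ Nm m ∧ Nm m ≤ 2 ^ (k + 1) := by
    intro k m hm
    obtain ⟨h1, h2⟩ := Finset.mem_filter.1 hm
    obtain ⟨i, hi, him⟩ := Finset.mem_image.1 h1
    have h3 : Nm m ≠ 0 := by
      apply Finset.card_ne_zero_of_mem (a := i)
      exact Finset.mem_filter.2 ⟨hi, him⟩
    constructor
    · rw [← h2]; exact Nat.pow_log_le_self 2 h3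
    · rw [← h2]; exact (Nat.lt_pow_succ_log_self (by norm_num) _).le
  have hcount : ∀ k, (A k).card * 2 ^ k ≤ J.card := by
    intro k
    calc (A k).card * 2 ^ k = ∑ _m ∈ A k, 2 ^ k := by rw [Finset.sum_const, smul_eq_mul]
      _ ≤ ∑ m ∈ A k, Nm m := Finset.sum_le_sum fun m hm => (hsize k m hm).1
      _ ≤ ∑ m ∈ J.image c, Nm m :=
          Finset.sum_le_sum_of_subset_of_nonneg (Finset.filter_subset _ _) fun _ _ _ => Nat.zero_le _
      _ = J.card := (Finset.card_eq_sum_card_image c J).symm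
  -- the weights
  set ρ : ℝ := 2 ^ (-((1 / a + 1 / b) * z / q)) with hρ
  have hexp : 0 < (1 / a + 1 / b) * z / q := by positivity
  have hρ0 : 0 < ρ := by positivity
  have hρ1 : ρ < 1 := by
    rw [hρ]
    exact Real.rpow_lt_one_of_one_lt_of_neg (by norm_num) (by linarith)
  set u : ℝ := N ^ (z / (a * q)) with hu
  have hu0 : 0 < u := by positivity
  set ω : ℕ → ℝ := fun k => min (u * ρ ^ k) (1 / (u * ρ ^ k)) with hω
  have hup : ∀ k, 0 < u * ρ ^ k := fun k => by positivity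
  have hω0 : ∀ k, 0 < ω k := fun k => lt_min (hup k) (one_div_pos.2 (hup k))
  have hωsum : ∑ k ∈ Finset.range K, ω k ≤ 4 / (1 - ρ) := sum_min_le hu0 hρ0 hρ1 K
  -- one scale
  set B : ℝ := 2 ^ q * N ^ (q - 1 / (a + b)) with hB
  have hB0 : 0 < B := by positivity
  have hone : ∀ k l, (l = b / (a + b) + z ∨ l = b / (a + b) + (-z)) → ∀ z', l = b / (a + b) + z' →
      (A k).Nonempty →
      ∫⁻ p, G k p ^ q ∂(τ.prod (μ.prod ν)) ≤ C₀ ^ (2 : ℝ) *
        ENNReal.ofReal (B * (N ^ (1 / a) * (2 ^ k : ℝ) ^ (-(1 / a + 1 / b))) ^ z') := by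
    intro k l hl z' hz' hne
    have hl0 : 0 < l := by rcases hl with rfl | rfl <;> [positivity; linarith]
    have hl1 : l < 1 := by
      rcases hl with rfl | rfl
      · linarith
      · have : 0 < a / (a + b) := by positivity
        linarith
    have hl1' : 0 < 1 - l := by linarith
    have he : 0 ≤ q - (1 - l) / a := by
      have h1 : 1 - l ≤ a / (a + b) + z := by
        rcases hl with rfl | rfl <;> linarith
      have h2 : (1 - l) / a ≤ (a / (a + b) + z) / a := div_le_div_of_nonneg_right h1 ha.le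
      have h3 : (a / (a + b) + z) / a = 1 / (a + b) + z / a := by field_simp
      have h4 : z / a ≤ q - 1 / (a + b) := by rw [div_le_iff₀ ha]; linarith
      linarith
    have hcard : 0 < ((A k).card : ℝ) := by exact_mod_cast hne.card_pos
    have hm1 : (1 : ℝ) ≤ 2 ^ k := one_le_pow₀ (by norm_num)
    have hm2 : (0 : ℝ) < 2 * 2 ^ k := by positivity
    have hstep := skew_step (τ := τ) (μ := μ) (ν := ν) (A k) w f hwm hfm hq hl0 hl1 (D := C₀)
      (E := C₀ * ENNReal.ofReal (2 * 2 ^ k))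
      (P := C₀ * ENNReal.ofReal (((A k).card : ℝ) ^ (1 + (q - 1) / (1 - l) - 1 / a)))
      (Q := C₀ * ENNReal.ofReal ((2 * 2 ^ k : ℝ) ^ (1 + (q - 1) / l - 1 / b)))
      (fun m _ t => hw1 m t)
      (by
        intro m hm t
        show ∫⁻ y, ∑ i ∈ J.filter (fun i => c i = m), g i (t, y) ∂ν ≤ _
        have hgi : ∀ i, Measurable (fun y => g i (t, y)) := fun i =>
          (hgm i).comp (measurable_const.prodMk measurable_id)
        rw [lintegral_finsetSum _ (fun i _ => hgi i)]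
        calc ∑ i ∈ J.filter (fun i => c i = m), ∫⁻ y, g i (t, y) ∂ν
            ≤ ∑ _i ∈ J.filter (fun i => c i = m), C₀ := Finset.sum_le_sum fun i _ => hg1 i t
          _ = (Nm m : ℝ≥0∞) * C₀ := by rw [Finset.sum_const, nsmul_eq_mul]
          _ ≤ ENNReal.ofReal (2 * 2 ^ k) * C₀ := by
              refine mul_le_mul' ?_ le_rfl
              rw [← ENNReal.ofReal_natCast]
              apply ENNReal.ofReal_le_ofReal
              have h := (hsize k m hm).2
              have h2 : (Nm m : ℝ) ≤ 2 ^ (k + 1) := by exact_mod_cast h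
              rw [pow_succ] at h2
              linarith
          _ = _ := mul_comm _ _)
      (hW l hl (A k) hne)
      (by
        intro m hm
        have h := (hsize k m hm)
        have hpos : 0 < Nm m := lt_of_lt_of_le (by positivity) h.1
        refine (hF l hl m (Finset.card_pos.1 hpos)).trans ?_
        refine mul_le_mul' le_rfl (ENNReal.ofReal_le_ofReal ?_)
        apply Real.rpow_le_rpow (Nat.cast_nonneg _) _ (he2 l hl)
        have h2 : (Nm m : ℝ) ≤ 2 ^ (k + 1) := by exact_mod_cast h.2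
        rw [pow_succ] at h2
        linarith)
    rw [triple ((hGm k).pow_const q)]
    refine hstep.trans ?_
    rw [← ENNReal.ofReal_natCast, alg C₀ hm2 hcard hl0 hl1]
    refine mul_le_mul' le_rfl (ENNReal.ofReal_le_ofReal ?_)
    have e1 : 1 - l + (1 + (q - 1) / l - 1 / b) * l = q - l / b := by field_simp; ring
    have e2 : (1 + (q - 1) / (1 - l) - 1 / a) * (1 - l) + l = q - (1 - l) / a := by field_simp; ring
    rw [e1, e2]
    refine real_scale ha hb hz' hl0.le he hm1 hcard ?_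
    have := hcount k
    have h5 : (((A k).card * 2 ^ k : ℕ) : ℝ) ≤ (J.card : ℝ) := by exact_mod_cast this
    push_cast at h5
    exact h5
  have hscale : ∀ k, ∫⁻ p, G k p ^ q ∂(τ.prod (μ.prod ν)) ≤
      C₀ ^ (2 : ℝ) * ENNReal.ofReal (B * ω k ^ q) := by
    intro k
    rcases (A k).eq_empty_or_nonempty with he | hne
    · have : ∀ p, G k p ^ q = 0 := by
        intro p
        have : G k p = 0 := by
          show ∑ m ∈ A k, w m (p.1, p.2.1) * f m (p.1, p.2.2) = 0
          rw [he, Finset.sum_empty]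
        rw [this, ENNReal.zero_rpow_of_pos hq0]
      simp only [this, lintegral_zero]
      exact zero_le
    · have hZ : (u * ρ ^ k) ^ q = (N ^ (1 / a) * (2 ^ k : ℝ) ^ (-(1 / a + 1 / b))) ^ z := by
        have h2 : (0 : ℝ) ≤ 2 := by norm_num
        have e1 : u ^ q = N ^ (1 / a * z) := by
          rw [hu, ← Real.rpow_mul hN0.le]
          congr 1
          field_simp
        have e2 : (ρ ^ k) ^ q = (2 ^ k : ℝ) ^ (-(1 / a + 1 / b) * z) := by
          rw [← Real.rpow_natCast ρ k, hρ, ← Real.rpow_mul h2, ← Real.rpow_mul h2, ← Real.rpow_natCast (2 : ℝ) k,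
            ← Real.rpow_mul h2]
          congr 1
          field_simp
        have h3 : (0 : ℝ) ≤ 2 ^ k := by positivity
        rw [Real.mul_rpow hu0.le (by positivity), e1, e2, Real.mul_rpow (by positivity) (by positivity),
          ← Real.rpow_mul hN0.le, ← Real.rpow_mul h3]
      rcases min_choice (u * ρ ^ k) (1 / (u * ρ ^ k)) with h | h
      · have h' : ω k = u * ρ ^ k := h
        rw [h', hZ]
        exact hone k _ (Or.inl rfl) z rfl hne
      · have h' : ω k = 1 / (u * ρ ^ k) := h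
        rw [h', Real.div_rpow zero_le_one (hup k).le, Real.one_rpow, hZ]
        have h2 := hone k _ (Or.inr rfl) (-z) rfl hne
        rw [Real.rpow_neg (by positivity), ← one_div] at h2
        exact h2
  -- summation
  set Ω : ℕ → ℝ≥0∞ := fun k => ENNReal.ofReal (ω k) with hΩ
  have hΩ0 : ∀ k, Ω k ≠ 0 := fun k => (ENNReal.ofReal_pos.2 (hω0 k)).ne'
  have hΩt : ∀ k, Ω k ≠ ∞ := fun k => ENNReal.ofReal_ne_top
  have hsumG : ∀ p, (∑ k ∈ Finset.range K, G k p) ^ q ≤
      (∑ k ∈ Finset.range K, Ω k) ^ (q - 1) * ∑ k ∈ Finset.range K, (Ω k * (Ω k)⁻¹ ^ q) * G k p ^ q := by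
    intro p
    have h := pw (Finset.range K) Ω (fun k => (Ω k)⁻¹ * G k p) hq
    have e1 : ∑ k ∈ Finset.range K, Ω k * ((Ω k)⁻¹ * G k p) = ∑ k ∈ Finset.range K, G k p := by
      refine Finset.sum_congr rfl fun k _ => ?_
      rw [← mul_assoc, ENNReal.mul_inv_cancel (hΩ0 k) (hΩt k), one_mul]
    rw [e1] at h
    refine h.trans (le_of_eq ?_)
    congr 1
    refine Finset.sum_congr rfl fun k _ => ?_
    rw [ENNReal.mul_rpow_of_nonneg _ _ hq0.le, mul_assoc]
  have hFm : Measurable (fun p : T × (X × Y) => (∑ i ∈ J, w (c i) (p.1, p.2.1) * g i (p.1, p.2.2)) ^ q) :=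
    (Finset.measurable_fun_sum _ fun i _ => ((hwm (c i)).comp htx).mul ((hgm i).comp hty)).pow_const q
  have hterm : ∀ k, Measurable (fun p => (Ω k * (Ω k)⁻¹ ^ q) * G k p ^ q) :=
    fun k => ((hGm k).pow_const q).const_mul _
  calc ∫⁻ t, ∫⁻ x, ∫⁻ y, (∑ i ∈ J, w (c i) (t, x) * g i (t, y)) ^ q ∂ν ∂μ ∂τ
      = ∫⁻ p, (∑ i ∈ J, w (c i) (p.1, p.2.1) * g i (p.1, p.2.2)) ^ q ∂(τ.prod (μ.prod ν)) :=
        (triple hFm).symm
    _ ≤ ∫⁻ p, (∑ k ∈ Finset.range K, Ω k) ^ (q - 1) *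
          ∑ k ∈ Finset.range K, (Ω k * (Ω k)⁻¹ ^ q) * G k p ^ q ∂(τ.prod (μ.prod ν)) := by
        refine lintegral_mono fun p => ?_
        simp only [hdec p]
        exact hsumG p
    _ = (∑ k ∈ Finset.range K, Ω k) ^ (q - 1) * ∑ k ∈ Finset.range K, (Ω k * (Ω k)⁻¹ ^ q) *
          ∫⁻ p, G k p ^ q ∂(τ.prod (μ.prod ν)) := by
        rw [lintegral_const_mul _ (Finset.measurable_fun_sum _ fun k _ => hterm k),
          lintegral_finsetSum _ (fun k _ => hterm k)]
        congr 1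
        refine Finset.sum_congr rfl fun k _ => ?_
        rw [lintegral_const_mul _ ((hGm k).pow_const q)]
    _ ≤ (∑ k ∈ Finset.range K, Ω k) ^ (q - 1) * ∑ k ∈ Finset.range K, (Ω k * (Ω k)⁻¹ ^ q) *
          (C₀ ^ (2 : ℝ) * ENNReal.ofReal (B * ω k ^ q)) := by
        gcongr with k _
        exact hscale k
    _ = (∑ k ∈ Finset.range K, Ω k) ^ (q - 1) * ∑ k ∈ Finset.range K, Ω k *
          (C₀ ^ (2 : ℝ) * ENNReal.ofReal B) := by
        congr 1
        refine Finset.sum_congr rfl fun k _ => ?_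
        rw [ENNReal.ofReal_mul hB0.le, ← ENNReal.ofReal_rpow_of_pos (hω0 k)]
        have h1 : (Ω k)⁻¹ ^ q * Ω k ^ q = 1 := by
          rw [← ENNReal.mul_rpow_of_nonneg _ _ hq0.le, ENNReal.inv_mul_cancel (hΩ0 k) (hΩt k), ENNReal.one_rpow]
        calc Ω k * (Ω k)⁻¹ ^ q * (C₀ ^ (2 : ℝ) * (ENNReal.ofReal B * Ω k ^ q))
            = Ω k * ((Ω k)⁻¹ ^ q * Ω k ^ q) * (C₀ ^ (2 : ℝ) * ENNReal.ofReal B) := by ring
          _ = _ := by rw [h1, mul_one]
    _ = (C₀ ^ (2 : ℝ) * ENNReal.ofReal B) * (∑ k ∈ Finset.range K, Ω k) ^ q := by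
        rw [← Finset.sum_mul]
        have e1 : (∑ k ∈ Finset.range K, Ω k) ^ q =
            (∑ k ∈ Finset.range K, Ω k) ^ (q - 1) * ∑ k ∈ Finset.range K, Ω k := by
          rw [← ENNReal.rpow_one (∑ k ∈ Finset.range K, Ω k), ← ENNReal.rpow_mul, ← ENNReal.rpow_mul,
            ← ENNReal.rpow_add_of_nonneg _ _ (by linarith) (by norm_num)]
          congr 1
          ring
        rw [e1]
        ring
    _ ≤ (C₀ ^ (2 : ℝ) * ENNReal.ofReal B) * ENNReal.ofReal ((4 / (1 - ρ)) ^ q) := by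
        refine mul_le_mul' le_rfl ?_
        have h1 : 0 < 4 / (1 - ρ) := by
          have : 0 < 1 - ρ := by linarith
          positivity
        rw [← ENNReal.ofReal_rpow_of_pos h1]
        refine ENNReal.rpow_le_rpow ?_ hq0.le
        show ∑ k ∈ Finset.range K, ENNReal.ofReal (ω k) ≤ _
        rw [← ENNReal.ofReal_sum_of_nonneg (fun k _ => (hω0 k).le)]
        exact ENNReal.ofReal_le_ofReal hωsum
    _ = _ := by
        rw [mul_assoc, ← ENNReal.ofReal_mul hB0.le, hB]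
        congr 2
        ring

end

end Pool.Agent.R134.Kak
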