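import Mathlib

set_option autoImplicit false

/-! The skew product principle for sums of products of overlapping families: one scale. -/

open MeasureTheory Set ENNReal NNReal

namespace Pool.Agent.R134.Kak

theorem pw {M : Type*} (A : Finset M) (w f : M → ℝ≥0∞) {q : ℝ} (hq : 1 ≤ q) :
    (∑ m ∈ A, w m * f m) ^ q ≤ (∑ m ∈ A, w m) ^ (q - 1) * ∑ m ∈ A, w m * f m ^ q := by
  have hq0 : 0 < q := by linarith
  have h := ENNReal.inner_le_weight_mul_Lp_of_nonneg A hq w f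
  have h2 := ENNReal.rpow_le_rpow h hq0.le
  refine h2.trans (le_of_eq ?_)
  rw [ENNReal.mul_rpow_of_nonneg _ _ hq0.le, ← ENNReal.rpow_mul, ← ENNReal.rpow_mul,
    inv_mul_cancel₀ hq0.ne', ENNReal.rpow_one]
  congr 2
  field_simp

theorem sum_holder {M : Type*} (A : Finset M) (X Y : M → ℝ≥0∞) {l : ℝ} (h0 : 0 < l) (h1 : l < 1) :
    ∑ m ∈ A, X m ^ (1 - l) * Y m ^ l ≤ (∑ m ∈ A, X m) ^ (1 - l) * (∑ m ∈ A, Y m) ^ l := by
  have h1' : 0 < 1 - l := by linarith
  have hpq : (1 / (1 - l)).HolderConjugate (1 / l) := by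
    rw [Real.holderConjugate_iff]
    constructor
    · rw [lt_div_iff₀ h1']; linarith
    · simp
  have h := ENNReal.inner_le_Lp_mul_Lq A (fun m => X m ^ (1 - l)) (fun m => Y m ^ l) hpq
  simp only [← ENNReal.rpow_mul, mul_one_div_cancel h1'.ne', mul_one_div_cancel h0.ne', ENNReal.rpow_one,
    one_div_one_div] at h
  exact h

/-- The one scale estimate, pointwise. -/
theorem pw2 {M : Type*} (A : Finset M) (w f : M → ℝ≥0∞) {q l : ℝ} (hq : 1 ≤ q) (h0 : 0 < l) (h1 : l < 1) :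
    (∑ m ∈ A, w m * f m) ^ q ≤
      (∑ m ∈ A, (∑ m ∈ A, w m) ^ ((q - 1) / (1 - l)) * w m * f m) ^ (1 - l) *
        (∑ m ∈ A, w m * f m ^ (1 + (q - 1) / l)) ^ l := by
  have h1' : 0 < 1 - l := by linarith
  have hq1 : 0 ≤ q - 1 := by linarith
  refine (pw A w f hq).trans ?_
  refine le_trans (le_of_eq ?_) (sum_holder A _ _ h0 h1)
  rw [Finset.mul_sum]
  refine Finset.sum_congr rfl fun m _ => ?_
  rw [ENNReal.mul_rpow_of_nonneg _ _ h1'.le, ENNReal.mul_rpow_of_nonneg _ _ h1'.le,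
    ENNReal.mul_rpow_of_nonneg _ _ h0.le, ← ENNReal.rpow_mul, ← ENNReal.rpow_mul,
    div_mul_cancel₀ _ h1'.ne']
  have e1 : (1 + (q - 1) / l) * l = l + (q - 1) := by field_simp
  rw [e1]
  have e2 : w m = w m ^ (1 - l) * w m ^ l := by
    rw [← ENNReal.rpow_add_of_nonneg _ _ h1'.le h0.le]
    simp
  have e3 : f m ^ q = f m ^ (1 - l) * f m ^ (l + (q - 1)) := by
    rw [← ENNReal.rpow_add_of_nonneg _ _ h1'.le (by positivity)]
    congr 1
    ring
  calc (∑ m ∈ A, w m) ^ (q - 1) * (w m * f m ^ q)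
      = (∑ m ∈ A, w m) ^ (q - 1) * ((w m ^ (1 - l) * w m ^ l) * (f m ^ (1 - l) * f m ^ (l + (q - 1)))) := by
        rw [← e2, ← e3]
    _ = _ := by ring

section

variable {T X Y M : Type*} [MeasurableSpace T] [MeasurableSpace X] [MeasurableSpace Y]
  {τ : Measure T} {μ : Measure X} {ν : Measure Y} [SFinite τ] [SFinite μ] [SFinite ν]

omit [SFinite τ] in
/-- The one scale estimate. -/
theorem skew_step (A : Finset M) (w : M → T × X → ℝ≥0∞) (f : M → T × Y → ℝ≥0∞)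
    (hwm : ∀ m, Measurable (w m)) (hfm : ∀ m, Measurable (f m)) {q l : ℝ} (hq : 1 ≤ q)
    (h0 : 0 < l) (h1 : l < 1) {D E P Q : ℝ≥0∞}
    (hw1 : ∀ m ∈ A, ∀ t, ∫⁻ x, w m (t, x) ∂μ ≤ D)
    (hf1 : ∀ m ∈ A, ∀ t, ∫⁻ y, f m (t, y) ∂ν ≤ E)
    (hW : ∫⁻ t, ∫⁻ x, (∑ m ∈ A, w m (t, x)) ^ (1 + (q - 1) / (1 - l)) ∂μ ∂τ ≤ P)
    (hF : ∀ m ∈ A, ∫⁻ t, ∫⁻ y, f m (t, y) ^ (1 + (q - 1) / l) ∂ν ∂τ ≤ Q) :
    ∫⁻ t, ∫⁻ x, ∫⁻ y, (∑ m ∈ A, w m (t, x) * f m (t, y)) ^ q ∂ν ∂μ ∂τ ≤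
      (E * P) ^ (1 - l) * ((A.card : ℝ≥0∞) * (D * Q)) ^ l := by
  have h1' : 0 < 1 - l := by linarith
  set r : ℝ := (q - 1) / (1 - l) with hr
  have hr0 : 0 ≤ r := div_nonneg (by linarith) h1'.le
  set s : ℝ := 1 + (q - 1) / l with hs
  set W : T × X → ℝ≥0∞ := fun p => ∑ m ∈ A, w m p with hWd
  have hWm : Measurable W := Finset.measurable_fun_sum _ fun m _ => hwm m
  set π : Measure (T × (X × Y)) := τ.prod (μ.prod ν) with hπ
  have htx : Measurable (fun p : T × (X × Y) => (p.1, p.2.1)) :=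
    measurable_fst.prodMk (measurable_fst.comp measurable_snd)
  have hty : Measurable (fun p : T × (X × Y) => (p.1, p.2.2)) :=
    measurable_fst.prodMk (measurable_snd.comp measurable_snd)
  set G : T × (X × Y) → ℝ≥0∞ := fun p => ∑ m ∈ A, w m (p.1, p.2.1) * f m (p.1, p.2.2) with hG
  have hGm : Measurable G := Finset.measurable_fun_sum _ fun m _ => ((hwm m).comp htx).mul ((hfm m).comp hty)
  set U : T × (X × Y) → ℝ≥0∞ := fun p => ∑ m ∈ A, W (p.1, p.2.1) ^ r * w m (p.1, p.2.1) * f m (p.1, p.2.2) with hU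
  set V : T × (X × Y) → ℝ≥0∞ := fun p => ∑ m ∈ A, w m (p.1, p.2.1) * f m (p.1, p.2.2) ^ s with hV
  have hUt : ∀ m, Measurable (fun p : T × (X × Y) => W (p.1, p.2.1) ^ r * w m (p.1, p.2.1) * f m (p.1, p.2.2)) :=
    fun m => (((hWm.comp htx).pow_const r).mul ((hwm m).comp htx)).mul ((hfm m).comp hty)
  have hVt : ∀ m, Measurable (fun p : T × (X × Y) => w m (p.1, p.2.1) * f m (p.1, p.2.2) ^ s) :=
    fun m => ((hwm m).comp htx).mul (((hfm m).comp hty).pow_const s)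
  have hUm : Measurable U := Finset.measurable_fun_sum _ fun m _ => hUt m
  have hVm : Measurable V := Finset.measurable_fun_sum _ fun m _ => hVt m
  -- iterated integrals
  have hit : ∀ g : T × (X × Y) → ℝ≥0∞, Measurable g →
      ∫⁻ p, g p ∂π = ∫⁻ t, ∫⁻ x, ∫⁻ y, g (t, (x, y)) ∂ν ∂μ ∂τ := by
    intro g hg
    rw [hπ, lintegral_prod _ hg.aemeasurable]
    refine lintegral_congr fun t => ?_
    have hgt : Measurable (fun z : X × Y => g (t, z)) := hg.comp (measurable_const.prodMk measurable_id)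
    rw [lintegral_prod _ hgt.aemeasurable]
  have hUi : ∫⁻ p, U p ∂π ≤ E * P := by
    rw [hit U hUm]
    have step : ∀ t x, ∫⁻ y, U (t, (x, y)) ∂ν ≤ E * W (t, x) ^ (1 + r) := by
      intro t x
      show ∫⁻ y, ∑ m ∈ A, W (t, x) ^ r * w m (t, x) * f m (t, y) ∂ν ≤ _
      have hfy : ∀ m, Measurable (fun y => f m (t, y)) := fun m =>
        (hfm m).comp (measurable_const.prodMk measurable_id)
      rw [lintegral_finsetSum _ (fun m _ => (hfy m).const_mul _)]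
      calc ∑ m ∈ A, ∫⁻ y, W (t, x) ^ r * w m (t, x) * f m (t, y) ∂ν
          = ∑ m ∈ A, W (t, x) ^ r * w m (t, x) * ∫⁻ y, f m (t, y) ∂ν :=
            Finset.sum_congr rfl fun m _ => lintegral_const_mul _ (hfy m)
        _ ≤ ∑ m ∈ A, W (t, x) ^ r * w m (t, x) * E :=
            Finset.sum_le_sum fun m hm => mul_le_mul' le_rfl (hf1 m hm t)
        _ = E * W (t, x) ^ (1 + r) := by
            rw [← Finset.sum_mul, ← Finset.mul_sum, ENNReal.rpow_add_of_nonneg _ _ zero_le_one hr0,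
              ENNReal.rpow_one]
            show W (t, x) ^ r * W (t, x) * E = _
            ring
    calc ∫⁻ t, ∫⁻ x, ∫⁻ y, U (t, (x, y)) ∂ν ∂μ ∂τ ≤ ∫⁻ t, ∫⁻ x, E * W (t, x) ^ (1 + r) ∂μ ∂τ :=
          lintegral_mono fun t => lintegral_mono fun x => step t x
      _ = E * ∫⁻ t, ∫⁻ x, W (t, x) ^ (1 + r) ∂μ ∂τ := by
          have hWp : Measurable (fun p => W p ^ (1 + r)) := hWm.pow_const _
          rw [← lintegral_const_mul _ (Measurable.lintegral_prod_right' (f := fun p => W p ^ (1 + r)) hWp)]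
          refine lintegral_congr fun t => ?_
          have hWt : Measurable (fun x => W (t, x) ^ (1 + r)) := hWp.comp (measurable_const.prodMk measurable_id)
          rw [lintegral_const_mul _ hWt]
      _ ≤ E * P := mul_le_mul' le_rfl hW
  have hVi : ∫⁻ p, V p ∂π ≤ (A.card : ℝ≥0∞) * (D * Q) := by
    have e : ∫⁻ p, V p ∂π = ∑ m ∈ A, ∫⁻ p, w m (p.1, p.2.1) * f m (p.1, p.2.2) ^ s ∂π :=
      lintegral_finsetSum _ (fun m _ => hVt m)
    rw [e]
    calc ∑ m ∈ A, ∫⁻ p, w m (p.1, p.2.1) * f m (p.1, p.2.2) ^ s ∂π ≤ ∑ _m ∈ A, D * Q := by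
          refine Finset.sum_le_sum fun m hm => ?_
          rw [hit _ (hVt m)]
          have hfs : Measurable (fun p => f m p ^ s) := (hfm m).pow_const s
          calc ∫⁻ t, ∫⁻ x, ∫⁻ y, w m (t, x) * f m (t, y) ^ s ∂ν ∂μ ∂τ
              = ∫⁻ t, (∫⁻ x, w m (t, x) ∂μ) * ∫⁻ y, f m (t, y) ^ s ∂ν ∂τ := by
                refine lintegral_congr fun t => ?_
                have hwx : Measurable (fun x => w m (t, x)) := (hwm m).comp (measurable_const.prodMk measurable_id)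
                rw [← lintegral_mul_const _ hwx]
                refine lintegral_congr fun x => ?_
                have hft : Measurable (fun y => f m (t, y) ^ s) := hfs.comp (measurable_const.prodMk measurable_id)
                rw [lintegral_const_mul _ hft]
            _ ≤ ∫⁻ t, D * ∫⁻ y, f m (t, y) ^ s ∂ν ∂τ :=
                lintegral_mono fun t => mul_le_mul' (hw1 m hm t) le_rfl
            _ = D * ∫⁻ t, ∫⁻ y, f m (t, y) ^ s ∂ν ∂τ := by
                rw [lintegral_const_mul _ (Measurable.lintegral_prod_right' (f := fun p => f m p ^ s) hfs)]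
            _ ≤ D * Q := mul_le_mul' le_rfl (hF m hm)
      _ = _ := by rw [Finset.sum_const, nsmul_eq_mul]
  calc ∫⁻ t, ∫⁻ x, ∫⁻ y, (∑ m ∈ A, w m (t, x) * f m (t, y)) ^ q ∂ν ∂μ ∂τ
      = ∫⁻ p, G p ^ q ∂π := by
        rw [hit _ (hGm.pow_const q)]
    _ ≤ ∫⁻ p, U p ^ (1 - l) * V p ^ l ∂π := by
        refine lintegral_mono fun p => ?_
        exact pw2 A (fun m => w m (p.1, p.2.1)) (fun m => f m (p.1, p.2.2)) hq h0 h1
    _ ≤ (∫⁻ p, U p ∂π) ^ (1 - l) * (∫⁻ p, V p ∂π) ^ l :=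
        ENNReal.lintegral_mul_norm_pow_le hUm.aemeasurable hVm.aemeasurable h1'.le h0.le (by ring)
    _ ≤ (E * P) ^ (1 - l) * ((A.card : ℝ≥0∞) * (D * Q)) ^ l :=
        mul_le_mul' (ENNReal.rpow_le_rpow hUi h1'.le) (ENNReal.rpow_le_rpow hVi h0.le)

end

end Pool.Agent.R134.Kak
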